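import Mathlib
import Pool.Agent.H204R3.SP.Descent

/-!
# Semisimplicity and extension of scalars
-/

set_option linter.unusedSectionVars false

namespace Pool.Agent.H204R3.GP

open Module TensorProduct Pool.Agent.H204R3.SP

noncomputable section

/-- Averaging a projection over a finite separable extension. -/
theorem exists_average {k Ω : Type*} [Field k] [Field Ω] [Algebra k Ω] [FiniteDimensional k Ω]
    [Algebra.IsSeparable k Ω] {W : Type*} [AddCommGroup W] [Module Ω W] [Module k W]
    [IsScalarTower k Ω W] (U : Submodule Ω W) (P : W →ₗ[k] W) (hP1 : ∀ w, P w ∈ U)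
    (hP2 : ∀ w ∈ U, P w = w) :
    ∃ Q : W →ₗ[Ω] W, (∀ w, Q w ∈ U) ∧ (∀ w ∈ U, Q w = w) ∧
      ∀ T : W →ₗ[Ω] W, (∀ w, P (T w) = T (P w)) → ∀ w, Q (T w) = T (Q w) := by
  have _ : Algebra.FormallyUnramified k Ω := Algebra.FormallyUnramified.of_isSeparable k Ω
  let E := Algebra.FormallyUnramified.elem k Ω
  -- the bilinear map
  let Φ : W → (Ω ⊗[k] Ω →ₗ[k] W) := fun w => TensorProduct.lift
    { toFun := fun x =>
        { toFun := fun y => x • P (y • w)
          map_add' := fun y y' => by rw [add_smul, map_add, smul_add]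
          map_smul' := fun c y => by
            rw [RingHom.id_apply, smul_assoc c y w, map_smul, smul_comm] }
      map_add' := fun x x' => by
        ext y
        exact add_smul x x' _
      map_smul' := fun c x => by
        ext y
        exact smul_assoc c x _ }
  have hΦ : ∀ w x y, Φ w (x ⊗ₜ y) = x • P (y • w) := fun w x y => rfl
  have hadd : ∀ w w' e, Φ (w + w') e = Φ w e + Φ w' e := by
    intro w w' e
    induction e with
    | zero => simp only [map_zero, add_zero]
    | add a b ha hb => rw [map_add, map_add, map_add, ha, hb]; abel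
    | tmul x y => rw [hΦ, hΦ, hΦ, smul_add, map_add, smul_add]
  have hsmul : ∀ (s : Ω) w e, Φ (s • w) e = Φ w ((1 ⊗ₜ[k] s) * e) := by
    intro s w e
    induction e with
    | zero => simp only [map_zero, mul_zero]
    | add a b ha hb => rw [map_add, mul_add, map_add, ha, hb]
    | tmul x y =>
      rw [Algebra.TensorProduct.tmul_mul_tmul, hΦ, hΦ, one_mul, smul_smul, mul_comm]
  have hsmul' : ∀ (s : Ω) w e, s • Φ w e = Φ w ((s ⊗ₜ[k] 1) * e) := by
    intro s w e
    induction e with
    | zero => simp only [map_zero, mul_zero, smul_zero]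
    | add a b ha hb => rw [map_add, mul_add, map_add, smul_add, ha, hb]
    | tmul x y =>
      rw [Algebra.TensorProduct.tmul_mul_tmul, hΦ, hΦ, one_mul, smul_smul]
  refine ⟨{ toFun := fun w => Φ w E, map_add' := fun w w' => hadd w w' E,
            map_smul' := fun s w => ?_ }, ?_, ?_, ?_⟩
  · rw [RingHom.id_apply, hsmul, hsmul', Algebra.FormallyUnramified.one_tmul_mul_elem]
  · intro w
    change Φ w E ∈ U
    induction E with
    | zero => rw [map_zero]; exact U.zero_mem
    | add a b ha hb => rw [map_add]; exact U.add_mem ha hb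
    | tmul x y => exact U.smul_mem _ (hP1 _)
  · intro w hw
    change Φ w E = w
    have h1 : ∀ e : Ω ⊗[k] Ω, Φ w e = (Algebra.TensorProduct.lmul' k (S := Ω) e : Ω) • w := by
      intro e
      induction e with
      | zero => simp only [map_zero, zero_smul]
      | add a b ha hb => rw [map_add, map_add, add_smul, ha, hb]
      | tmul x y =>
        rw [hΦ, hP2 _ (U.smul_mem _ hw), smul_smul]
        rfl
    rw [h1]
    have h2 : Algebra.TensorProduct.lmul' k (S := Ω) E = 1 := Algebra.FormallyUnramified.lmul_elem
    rw [h2, one_smul]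
  · intro T hT w
    change Φ (T w) E = T (Φ w E)
    induction E with
    | zero => rw [map_zero, map_zero, map_zero]
    | add a b ha hb => rw [map_add, map_add, map_add, ha, hb]
    | tmul x y => rw [hΦ, hΦ, ← map_smul T, hT, ← map_smul T]

/-- Semisimplicity under all operators in `S`: every stable subspace has a stable complement. -/
def SemiUnder {k : Type*} [Field k] {V : Type*} [AddCommGroup V] [Module k V]
    (S : Set (Module.End k V)) : Prop :=
  ∀ U : Submodule k V, (∀ T ∈ S, ∀ u ∈ U, T u ∈ U) →
    ∃ U' : Submodule k V, (∀ T ∈ S, ∀ u ∈ U', T u ∈ U') ∧ IsCompl U U'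

theorem exists_proj_baseChange {k Ω : Type*} [Field k] [Field Ω] [Algebra k Ω]
    [FiniteDimensional k Ω] [Algebra.IsSeparable k Ω] {V : Type*} [AddCommGroup V] [Module k V]
    (S : Set (Module.End k V)) (hS : SemiUnder S) (U : Submodule Ω (Ω ⊗[k] V))
    (hU : ∀ T ∈ S, ∀ u ∈ U, T.baseChange Ω u ∈ U) :
    ∃ Q : (Ω ⊗[k] V) →ₗ[Ω] (Ω ⊗[k] V), (∀ w, Q w ∈ U) ∧ (∀ w ∈ U, Q w = w) ∧
      ∀ T ∈ S, ∀ w, Q (T.baseChange Ω w) = T.baseChange Ω (Q w) := by
  let A : Subalgebra k (Module.End k V) := Algebra.adjoin k S
  have hAV : ∀ (a : A) (v : V), a • v = (a : Module.End k V) v := fun _ _ => rfl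
  -- `V` is a semisimple module over `A`
  have hss : IsSemisimpleModule A V := by
    refine { exists_isCompl := fun N => ?_ }
    let U0 : Submodule k V :=
      { carrier := N
        add_mem' := fun ha hb => N.add_mem ha hb
        zero_mem' := N.zero_mem
        smul_mem' := fun c x hx => by
          have h1 : c • x = (algebraMap k A c) • x := by
            rw [hAV]
            rfl
          rw [h1]
          exact N.smul_mem _ hx }
    obtain ⟨U', hU'1, hU'2⟩ := hS U0 (fun T hT u hu => by
      have h1 : T u = (⟨T, Algebra.subset_adjoin hT⟩ : A) • u := rfl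
      rw [h1]
      exact N.smul_mem _ hu)
    have hA : ∀ a ∈ Algebra.adjoin k S, ∀ u ∈ U', a u ∈ U' := by
      intro a ha
      induction ha using Algebra.adjoin_induction with
      | mem T hT => exact hU'1 T hT
      | algebraMap c =>
        intro u hu
        exact U'.smul_mem c hu
      | add a b _ _ ha hb =>
        intro u hu
        exact U'.add_mem (ha u hu) (hb u hu)
      | mul a b _ _ ha hb =>
        intro u hu
        exact ha _ (hb u hu)
    refine ⟨{ carrier := U'
              add_mem' := fun ha hb => U'.add_mem ha hb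
              zero_mem' := U'.zero_mem
              smul_mem' := fun a x hx => hA a.1 a.2 x hx }, ?_⟩
    constructor
    · rw [Submodule.disjoint_def]
      intro x hx hx'
      exact (Submodule.disjoint_def.1 hU'2.disjoint) x hx hx'
    · rw [codisjoint_iff, eq_top_iff]
      intro x _
      have h1 : x ∈ U0 ⊔ U' := by
        rw [hU'2.sup_eq_top]
        trivial
      obtain ⟨y, hy, z, hz, rfl⟩ := Submodule.mem_sup.1 h1
      exact Submodule.add_mem_sup hy hz
  -- the module structure on the scalar extension
  let φ : A →+* Module.End Ω (Ω ⊗[k] V) :=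
    ((Module.End.baseChangeHom k Ω V : _ →ₐ[k] _) : Module.End k V →+* Module.End Ω (Ω ⊗[k] V)).comp
      (A.val : A →+* Module.End k V)
  let _ : Module A (Ω ⊗[k] V) := Module.compHom _ φ
  have hAW : ∀ (a : A) (w : Ω ⊗[k] V), a • w = (a : Module.End k V).baseChange Ω w :=
    fun _ _ => rfl
  let w := Module.finBasis k Ω
  let ι : Fin (finrank k Ω) → (V →ₗ[A] Ω ⊗[k] V) := fun i =>
    { toFun := fun v => w i ⊗ₜ[k] v
      map_add' := fun v v' => TensorProduct.tmul_add _ _ _
      map_smul' := fun a v => by
        rw [RingHom.id_apply, hAW, LinearMap.baseChange_tmul]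
        rfl }
  have hWss : IsSemisimpleModule A (Ω ⊗[k] V) := by
    refine isSemisimpleModule_of_isSemisimpleModule_submodule' (p := fun i => LinearMap.range (ι i))
      (fun i => IsSemisimpleModule.range (ι i)) ?_
    rw [eq_top_iff]
    intro x _
    induction x with
    | zero => exact Submodule.zero_mem _
    | add a b ha hb => exact Submodule.add_mem _ (ha trivial) (hb trivial)
    | tmul c v =>
      have h1 : c ⊗ₜ[k] v = ∑ i, w i ⊗ₜ[k] (w.repr c i • v) := by
        conv_lhs => rw [← w.sum_repr c]
        rw [TensorProduct.sum_tmul]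
        exact Finset.sum_congr rfl fun i _ => TensorProduct.smul_tmul _ _ _
      rw [h1]
      exact Submodule.sum_mem _ fun i _ => Submodule.mem_iSup_of_mem i ⟨_, rfl⟩
  -- the submodule
  have hUA : ∀ a ∈ Algebra.adjoin k S, ∀ u ∈ U, a.baseChange Ω u ∈ U := by
    intro a ha
    induction ha using Algebra.adjoin_induction with
    | mem T hT => exact hU T hT
    | algebraMap c =>
      intro u hu
      have h1 : ((algebraMap k (Module.End k V) c).baseChange Ω) u = (algebraMap k Ω c) • u := by
        rw [Algebra.algebraMap_eq_smul_one c, LinearMap.baseChange_smul, LinearMap.baseChange_one,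
          LinearMap.smul_apply, algebraMap_smul]
        rfl
      rw [h1]
      exact U.smul_mem _ hu
    | add a b _ _ ha hb =>
      intro u hu
      rw [LinearMap.baseChange_add]
      exact U.add_mem (ha u hu) (hb u hu)
    | mul a b _ _ ha hb =>
      intro u hu
      rw [LinearMap.baseChange_mul]
      exact ha _ (hb u hu)
  let UA : Submodule A (Ω ⊗[k] V) :=
    { carrier := U
      add_mem' := fun ha hb => U.add_mem ha hb
      zero_mem' := U.zero_mem
      smul_mem' := fun a x hx => hUA a.1 a.2 x hx }
  obtain ⟨UA', hUA'⟩ := exists_isCompl UA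
  let P0 : (Ω ⊗[k] V) →ₗ[A] (Ω ⊗[k] V) := UA.projection UA' hUA'
  have hkA : ∀ (c : k) (w : Ω ⊗[k] V), (algebraMap k A c) • w = c • w := by
    intro c w
    rw [hAW]
    change ((algebraMap k (Module.End k V) c).baseChange Ω) w = _
    rw [Algebra.algebraMap_eq_smul_one c, LinearMap.baseChange_smul, LinearMap.baseChange_one,
      LinearMap.smul_apply]
    rfl
  let P : (Ω ⊗[k] V) →ₗ[k] (Ω ⊗[k] V) :=
    { toFun := P0
      map_add' := P0.map_add
      map_smul' := fun c w => by
        rw [RingHom.id_apply, ← hkA, P0.map_smul, hkA] }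
  obtain ⟨Q, hQ1, hQ2, hQ3⟩ := exists_average (k := k) U P (fun w => by
    change P0 w ∈ UA
    rw [Submodule.projection_apply]
    exact SetLike.coe_mem _) (fun w hw => by
    change P0 w = w
    exact Submodule.projection_apply_of_mem_left hUA' hw)
  refine ⟨Q, hQ1, hQ2, fun T hT => hQ3 (T.baseChange Ω) fun w => ?_⟩
  exact P0.map_smul (⟨T, Algebra.subset_adjoin hT⟩ : A) w

end

end Pool.Agent.H204R3.GP
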