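import Mathlib
import Pool.Agent.H204R3.SP.Descent
import Pool.Agent.H204R3.GP.TateG
import Pool.Agent.H204R3.GP.Semi

/-!
# Descent of Tate forms from a finite extension, and alternating forms
-/

set_option linter.unusedSectionVars false

namespace Pool.Agent.H204R3.GP

open Module TensorProduct Pool.Agent.H204R3.CM Pool.Agent.H204R3.SP

noncomputable section

variable {k Ω : Type*} [Field k] [Field Ω] [Algebra k Ω] {V : Type*} [AddCommGroup V] [Module k V]
  [CharZero k] [CharZero Ω] {ν : Type*} [Fintype ν] [DecidableEq ν] (b : Basis ν k V)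
  {Γ : Type*} [Group Γ] (ρ : Representation k Γ V) (χ : Γ →* k)

/-- A component of a bilinear form over a finite extension. -/
def comp2 {n : ℕ} (w : Basis (Fin n) k Ω)
    (B : (Ω ⊗[k] V) →ₗ[Ω] (Ω ⊗[k] V) →ₗ[Ω] Ω) (i : Fin n) : V →ₗ[k] V →ₗ[k] k :=
  LinearMap.mk₂ k (fun u v => w.repr (B ((1 : Ω) ⊗ₜ[k] u) ((1 : Ω) ⊗ₜ[k] v)) i)
    (fun u u' v => by
      rw [TensorProduct.tmul_add, map_add, LinearMap.add_apply, map_add, Finsupp.add_apply])
    (fun c u v => by
      rw [TensorProduct.tmul_smul, ← algebraMap_smul Ω c ((1 : Ω) ⊗ₜ[k] u), map_smul,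
        LinearMap.smul_apply, algebraMap_smul, map_smul, Finsupp.smul_apply])
    (fun u v v' => by
      rw [TensorProduct.tmul_add, map_add, map_add, Finsupp.add_apply])
    (fun c u v => by
      rw [TensorProduct.tmul_smul, ← algebraMap_smul Ω c ((1 : Ω) ⊗ₜ[k] v), map_smul,
        algebraMap_smul, map_smul, Finsupp.smul_apply])

theorem comp2_apply {n : ℕ} (w : Basis (Fin n) k Ω)
    (B : (Ω ⊗[k] V) →ₗ[Ω] (Ω ⊗[k] V) →ₗ[Ω] Ω) (i : Fin n) (u v : V) :
    comp2 w B i u v = w.repr (B ((1 : Ω) ⊗ₜ[k] u) ((1 : Ω) ⊗ₜ[k] v)) i := rfl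

theorem comp2_tate {n : ℕ} (w : Basis (Fin n) k Ω)
    {B : (Ω ⊗[k] V) →ₗ[Ω] (Ω ⊗[k] V) →ₗ[Ω] Ω} (hB : IsTate2 (bcr ρ Ω) (bcc χ Ω) B) (i : Fin n) :
    IsTate2 ρ χ (comp2 w B i) := by
  obtain ⟨Δ, hΔ, h⟩ := hB
  refine ⟨Δ, hΔ, fun s hs u v => ?_⟩
  rw [comp2_apply, comp2_apply]
  have h1 := h s hs ((1 : Ω) ⊗ₜ[k] u) ((1 : Ω) ⊗ₜ[k] v)
  rw [bcr_tmul, bcr_tmul, bcc_apply] at h1
  rw [h1, ← Algebra.smul_def, map_smul, Finsupp.smul_apply, smul_eq_mul]

include b in
/-- Descent: if the Tate forms over the larger field are combinations of products of Tate forms of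
degree two, so are the Tate forms over the smaller field. -/
theorem tate_descentG [FiniteDimensional k Ω] {m : ℕ}
    (hall : ∀ φ : MultilinearMap Ω (fun _ : Fin m × Fin 2 => Ω ⊗[k] V) Ω,
      IsTate (bcr ρ Ω) (bcc χ Ω) m φ → φ ∈ Submodule.span Ω (PT (bcr ρ Ω) (bcc χ Ω) m))
    (φ : MultilinearMap k (fun _ : Fin m × Fin 2 => V) k) (hφ : IsTate ρ χ m φ) :
    φ ∈ Submodule.span k (PT ρ χ m) := by
  classical
  have h1 := hall _ (bcm_tate (Ω := Ω) b ρ χ φ hφ)
  let w := Module.finBasis k Ω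
  let res : MultilinearMap Ω (fun _ : Fin m × Fin 2 => Ω ⊗[k] V) Ω →ₗ[Ω]
      ((Fin m × Fin 2 → V) → Ω) :=
    { toFun := fun F v => F (fun l => (1 : Ω) ⊗ₜ[k] v l)
      map_add' := fun _ _ => rfl
      map_smul' := fun _ _ => rfl }
  let emb : MultilinearMap k (fun _ : Fin m × Fin 2 => V) k →ₗ[k]
      ((Fin m × Fin 2 → V) → k) :=
    { toFun := fun F v => F v
      map_add' := fun _ _ => rfl
      map_smul' := fun _ _ => rfl }
  have h2 : res (bcm (Ω := Ω) b φ) = fun v => algebraMap k Ω (φ v) := by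
    funext v
    exact bcm_one b φ v
  have h3 : (fun v => algebraMap k Ω (φ v)) ∈ Submodule.span Ω
      {g : (Fin m × Fin 2 → V) → Ω | ∃ s ∈ emb '' (PT ρ χ m),
        g = fun x => algebraMap k Ω (s x)} := by
    rw [← h2]
    have h4 : (Submodule.span Ω (PT (bcr ρ Ω) (bcc χ Ω) m)).map res ≤ Submodule.span Ω
      {g : (Fin m × Fin 2 → V) → Ω | ∃ s ∈ emb '' (PT ρ χ m),
        g = fun x => algebraMap k Ω (s x)} := by
      rw [Submodule.map_span, Submodule.span_le]
      rintro _ ⟨_, ⟨σ, B, hB, rfl⟩, rfl⟩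
      have h5 : res (mmG σ B) = ∑ g : Fin m → Fin (finrank k Ω), (∏ l, w (g l)) •
          (fun v => algebraMap k Ω (mmG σ (fun l => comp2 w (B l) (g l)) v)) := by
        funext v
        rw [Finset.sum_apply]
        change mmG σ B (fun l => (1 : Ω) ⊗ₜ[k] v l) = _
        rw [mmG_apply]
        have h6 : ∀ l, B l ((1 : Ω) ⊗ₜ[k] v (σ (l, 0))) ((1 : Ω) ⊗ₜ[k] v (σ (l, 1))) =
            ∑ i, w i * algebraMap k Ω (comp2 w (B l) i (v (σ (l, 0))) (v (σ (l, 1)))) := by
          intro l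
          conv_lhs => rw [← w.sum_repr (B l ((1 : Ω) ⊗ₜ[k] v (σ (l, 0)))
            ((1 : Ω) ⊗ₜ[k] v (σ (l, 1))))]
          refine Finset.sum_congr rfl fun i _ => ?_
          rw [comp2_apply, Algebra.smul_def, mul_comm]
        rw [Finset.prod_congr rfl (fun l _ => h6 l), Finset.prod_univ_sum, Fintype.piFinset_univ]
        refine Finset.sum_congr rfl fun g _ => ?_
        rw [Finset.prod_mul_distrib, Pi.smul_apply, smul_eq_mul, mmG_apply, map_prod]
      rw [h5]
      refine Submodule.sum_mem _ fun g _ => Submodule.smul_mem _ _ (Submodule.subset_span ?_)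
      exact ⟨_, ⟨_, ⟨σ, _, fun l => comp2_tate ρ χ w (hB l) (g l), rfl⟩, rfl⟩, rfl⟩
    exact h4 (Submodule.mem_map_of_mem h1)
  have h4 := span_descent_k _ _ h3
  rw [← Submodule.map_span] at h4
  obtain ⟨φ', hφ', hφφ⟩ := h4
  have h6 : φ' = φ := MultilinearMap.ext fun v => congrFun hφφ v
  rwa [← h6]

/-- Alternating forms on `V ^ n`: if all Tate forms on `V` are combinations of products of
Tate forms of degree two, the same holds for all alternating Tate forms on `V ^ n`. -/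
theorem altG_of_tate_mem {n m : ℕ}
    (hall : ∀ φ : MultilinearMap k (fun _ : Fin m × Fin 2 => V) k, IsTate ρ χ m φ →
      φ ∈ Submodule.span k (PT ρ χ m))
    (f : (Fin n → V) [⋀^Fin m × Fin 2]→ₗ[k] k)
    (Δ : Subgroup Γ) (hΔ : Δ.FiniteIndex)
    (hf : ∀ s ∈ Δ, ∀ v : Fin m × Fin 2 → Fin n → V,
      f (fun l i => ρ s (v l i)) = χ s ^ m * f v) :
    f ∈ Submodule.span k {g : (Fin n → V) [⋀^Fin m × Fin 2]→ₗ[k] k |
      ∃ B : Fin m → (Fin n → V) [⋀^Fin 2]→ₗ[k] k,
        (∀ l, ∃ Δ : Subgroup Γ, Δ.FiniteIndex ∧ ∀ s ∈ Δ, ∀ v : Fin 2 → Fin n → V,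
          B l (fun ε i => ρ s (v ε i)) = χ s * B l v) ∧
        ∀ v, g v = ∑ σ : Equiv.Perm (Fin m × Fin 2), ((Equiv.Perm.sign σ : ℤ) : k) *
          ∏ l, B l ![v (σ (l, 0)), v (σ (l, 1))]} := by
  classical
  let BB : Set (MultilinearMap k (fun _ : Fin 2 => Fin n → V) k) :=
    {B | ∃ Δ : Subgroup Γ, Δ.FiniteIndex ∧ ∀ s ∈ Δ, ∀ v : Fin 2 → Fin n → V,
      B (fun ε i => ρ s (v ε i)) = χ s * B v}
  have hmem : (fun v => f v) ∈ Submodule.span k {g : (Fin m × Fin 2 → Fin n → V) → k |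
      ∃ (e : Equiv.Perm (Fin m × Fin 2))
        (B : Fin m → MultilinearMap k (fun _ : Fin 2 => Fin n → V) k),
        (∀ s, B s ∈ BB) ∧ g = fun v => ∏ s, B s (fun ε => v (e (s, ε)))} := by
    let fc : (Fin m × Fin 2 → Fin n) → MultilinearMap k (fun _ : Fin m × Fin 2 => V) k := fun c =>
      f.toMultilinearMap.compLinearMap (fun l => LinearMap.single k (fun _ : Fin n => V) (c l))
    have hfc : ∀ c, IsTate ρ χ m (fc c) := by
      intro c
      refine ⟨Δ, hΔ, fun s hs v => ?_⟩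
      have h1 := hf s hs (fun l => Pi.single (c l) (v l))
      change f (fun l => Pi.single (c l) (ρ s (v l))) = χ s ^ m * f (fun l => Pi.single (c l) (v l))
      rw [← h1]
      congr 1
      funext l i
      by_cases hi : i = c l
      · subst hi
        rw [Pi.single_eq_same, Pi.single_eq_same]
      · rw [Pi.single_eq_of_ne hi, Pi.single_eq_of_ne hi, map_zero]
    have hsum : (fun v => f v) = ∑ c : Fin m × Fin 2 → Fin n,
        (fun v : Fin m × Fin 2 → Fin n → V => fc c (fun l => v l (c l))) := by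
      funext v
      rw [Finset.sum_apply]
      have h1 : v = fun l => ∑ i, Pi.single i (v l i) := by
        funext l
        exact (Finset.univ_sum_single (v l)).symm
      conv_lhs => rw [h1]
      exact f.toMultilinearMap.map_sum (fun l i => Pi.single i (v l i))
    rw [hsum]
    refine Submodule.sum_mem _ fun c _ => ?_
    have h2 := hall (fc c) (hfc c)
    have h3 : ∀ φ ∈ Submodule.span k (PT ρ χ m),
        (fun v : Fin m × Fin 2 → Fin n → V => φ (fun l => v l (c l))) ∈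
        Submodule.span k {g : (Fin m × Fin 2 → Fin n → V) → k |
      ∃ (e : Equiv.Perm (Fin m × Fin 2))
        (B : Fin m → MultilinearMap k (fun _ : Fin 2 => Fin n → V) k),
        (∀ s, B s ∈ BB) ∧ g = fun v => ∏ s, B s (fun ε => v (e (s, ε)))} := by
      intro φ hφ
      induction hφ using Submodule.span_induction with
      | mem φ hφ =>
        obtain ⟨σ, B, hB, rfl⟩ := hφ
        refine Submodule.subset_span ⟨σ, fun s => bil2 ((B s).compl₁₂
          (LinearMap.proj (c (σ (s, 0)))) (LinearMap.proj (c (σ (s, 1))))), fun s => ?_, ?_⟩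
        · obtain ⟨Δ', hΔ', hB'⟩ := hB s
          refine ⟨Δ', hΔ', fun t ht v => ?_⟩
          rw [bil2_apply, bil2_apply]
          exact hB' t ht _ _
        · funext v
          rw [mmG_apply]
          rfl
      | zero => exact Submodule.zero_mem _
      | add a b _ _ ha hb => exact Submodule.add_mem _ ha hb
      | smul c a _ ha => exact Submodule.smul_mem _ c ha
    exact h3 _ h2
  have h1 := alt_span BB f hmem
  refine Submodule.span_mono ?_ h1
  rintro g ⟨B, hB, hg⟩
  refine ⟨fun l => MultilinearMap.alternatization (B l), fun l => ?_, hg⟩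
  obtain ⟨Δ', hΔ', hB'⟩ := hB l
  refine ⟨Δ', hΔ', fun s hs v => ?_⟩
  rw [MultilinearMap.alternatization_apply, MultilinearMap.alternatization_apply, Finset.mul_sum]
  refine Finset.sum_congr rfl fun σ _ => ?_
  rw [mul_smul_comm]
  congr 1
  exact hB' s hs (fun ε => v (σ ε))

end

end Pool.Agent.H204R3.GP
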