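import Mathlib
import Pool.Agent.H204R3.SP.Slopes
import Pool.Agent.H204R3.GP.CoreFam

/-!
# Families of Weil numbers: multiplicative relations between conjugates
-/

set_option linter.unusedSectionVars false

namespace Pool.Agent.H204R3.GP

open NumberField Module Pool.Agent.H204R3.CM Pool.Agent.H204R3.SP

noncomputable section

/-- Conjugation on the disjoint union of the sets of embeddings. -/
def bar {ι : Type*} {F : ι → Type*} [∀ i, Field (F i)] [∀ i, NumberField (F i)]
    [∀ i, IsCMField (F i)] {L : Type*} [Field L] (x : Σ i, (F i →+* L)) : Σ i, (F i →+* L) :=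
  ⟨x.1, cbar x.2⟩

theorem bar_bar {ι : Type*} {F : ι → Type*} [∀ i, Field (F i)] [∀ i, NumberField (F i)]
    [∀ i, IsCMField (F i)] {L : Type*} [Field L] (x : Σ i, (F i →+* L)) : bar (bar x) = x := by
  obtain ⟨i, φ⟩ := x
  simp only [bar, cbar_cbar]

theorem bar_ne {ι : Type*} {F : ι → Type*} [∀ i, Field (F i)] [∀ i, NumberField (F i)]
    [∀ i, IsCMField (F i)] {L : Type*} [Field L] (x : Σ i, (F i →+* L)) : bar x ≠ x := by
  obtain ⟨i, φ⟩ := x
  intro h
  simp only [bar, Sigma.mk.injEq, heq_eq_eq, true_and] at h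
  exact cbar_ne φ h

/-- The value of an embedding on the Weil number. -/
def val {ι : Type*} {F : ι → Type*} [∀ i, Field (F i)] (π : ∀ i, F i)
    {L : Type*} [Field L] (x : Σ i, (F i →+* L)) : L := x.2 (π x.1)

variable {p : ℕ} [Fact p.Prime] {a : ℕ} {ι : Type*} [Fintype ι] {F : ι → Type*}
  [∀ i, Field (F i)] [∀ i, NumberField (F i)] [∀ i, IsCMField (F i)]
  {L : Type*} [Field L] [NumberField L] [IsGalois ℚ L]

theorem val_bar {π : ∀ i, F i} (hw : ∀ i, π i * IsCMField.complexConj (F i) (π i) = (p : F i) ^ a)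
    (x : Σ i, (F i →+* L)) : val π x * val π (bar x) = (p : L) ^ a := by
  change x.2 (π x.1) * x.2 (IsCMField.complexConj (F x.1) (π x.1)) = _
  rw [← map_mul, hw, map_pow, map_natCast]

/-- A multiplicative relation between the conjugates is trivial. -/
theorem balanceG (ha : 0 < a) {π : ∀ i, F i}
    (hw : ∀ i, π i * IsCMField.complexConj (F i) (π i) = (p : F i) ^ a)
    (hslope : ∀ i, OddSlopes p a (π i)) {d : ι → ℕ} (hdeg : ∀ i, finrank ℚ (F i) = 2 ^ (d i + 1))
    (hdisc : ∀ S : Finset ι, S.Nonempty → ¬ IsSquare (∏ i ∈ S, discr (F i))) (j : L →+* ℂ)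
    (h : ∀ i, ∀ ψ : F i →+* ℂ, ∃ φ : F i →+* L, j.comp φ = ψ) (jp : L →+* PadicAlgCl p)
    [DecidableEq (Σ i, (F i →+* L))]
    {m M : ℕ} (hM : 0 < M) (I : Fin m × Fin 2 → (Σ i, (F i →+* L)))
    (hprod : ∏ l, (val π (I l)) ^ M = ((p : L) ^ a) ^ (m * M)) (y : Σ i, (F i →+* L)) :
    (Finset.univ.filter (fun l => I l = y)).card =
      (Finset.univ.filter (fun l => I l = bar y)).card := by
  classical
  have h0 := norm_q_pos p a
  have h1 := norm_q_lt p ha
  choose N hN using hslope
  choose u hu1 hu2 using hN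
  set Q : ℝ := ‖(p : PadicAlgCl p) ^ a‖ with hQ
  let e : ∀ i, (F i →+* L) → ℤ := fun i φ => u i (jp.comp φ)
  have hNpos : ∀ i, 0 < N i := by
    intro i
    by_contra hN0
    have hN0' : N i = 0 := by omega
    have hne : Nonempty (F i →+* L) := by
      rw [← Fintype.card_pos_iff, card_emb j (h i)]
      exact finrank_pos
    obtain ⟨φ⟩ := hne
    have h2 := hu2 i (jp.comp φ)
    rw [hN0', mul_zero, pow_zero, Nat.cast_zero, zero_add, ← zpow_zero Q] at h2
    have h3 := zpow_inj' h0 h1 h2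
    obtain ⟨b, hb⟩ := hu1 i (jp.comp φ)
    omega
  let w : ι → ℕ := fun i => ∏ i' ∈ Finset.univ.erase i, N i'
  have hwpos : ∀ i, 0 < w i := fun i => Finset.prod_pos fun i' _ => hNpos i'
  have hwN : ∀ i, N i * w i = ∏ i', N i' := fun i => Finset.mul_prod_erase _ _ (Finset.mem_univ i)
  set N' : ℕ := ∏ i', N i' with hN'
  let E : (Σ i, (F i →+* L)) → ℤ := fun x => (w x.1 : ℤ) * e x.1 x.2
  have he : ∀ i φ, e i (cbar φ) = -e i φ := by
    intro i φ
    have h2 : ‖(jp.comp φ) (π i)‖ * ‖(jp.comp (cbar φ)) (π i)‖ = Q := by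
      rw [← norm_mul, hQ]
      congr 1
      change jp (φ (π i)) * jp (φ (IsCMField.complexConj (F i) (π i))) = _
      rw [← map_mul, ← map_mul, hw]
      simp only [map_pow, map_natCast]
    have h3 : ‖(jp.comp φ) (π i)‖ ^ (2 * N i) * ‖(jp.comp (cbar φ)) (π i)‖ ^ (2 * N i) =
        Q ^ (2 * N i) := by
      rw [← mul_pow, h2]
    rw [hu2, hu2, ← zpow_add₀ h0.ne', ← zpow_natCast] at h3
    have h4 := zpow_inj' h0 h1 h3
    push_cast at h4
    change u i (jp.comp (cbar φ)) = -u i (jp.comp φ)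
    linarith
  -- the relation
  have hrel0 : ∀ σ : L ≃ₐ[ℚ] L, ∑ l, E (σ • I l) = 0 := by
    intro σ
    have h2 : ∏ l, (jp.comp (σ • I l).2) (π (I l).1) ^ M = ((p : PadicAlgCl p) ^ a) ^ (m * M) := by
      have h3 := congrArg (fun x => jp (σ x)) hprod
      simp only [map_prod, map_pow, map_natCast] at h3
      exact h3
    have h3 := congrArg (fun x => ‖x‖) h2
    simp only [norm_prod, norm_pow (_ : PadicAlgCl p)] at h3
    rw [Finset.prod_pow, ← norm_pow, ← hQ, pow_mul] at h3
    have h4 : ∏ l, ‖(jp.comp (σ • I l).2) (π (I l).1)‖ = Q ^ m :=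
      (pow_left_inj₀ (Finset.prod_nonneg fun _ _ => norm_nonneg _) (pow_nonneg h0.le _) hM.ne').1 h3
    have h5 : ∏ l, ‖(jp.comp (σ • I l).2) (π (I l).1)‖ ^ (2 * N') = Q ^ (m * (2 * N')) := by
      rw [Finset.prod_pow, h4, ← pow_mul]
    have h6 : ∀ l, ‖(jp.comp (σ • I l).2) (π (I l).1)‖ ^ (2 * N') =
        Q ^ ((N' : ℤ) + E (σ • I l)) := by
      intro l
      have h6a := hu2 (I l).1 (jp.comp (σ • I l).2)
      have h6b : 2 * N' = (2 * N (I l).1) * w (I l).1 := by rw [← hwN (I l).1]; ring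
      rw [h6b, pow_mul]
      refine (congrArg (fun t : ℝ => t ^ w (I l).1) h6a).trans ?_
      rw [← zpow_natCast, ← zpow_mul]
      congr 1
      have h6c : (N' : ℤ) = (N (I l).1 : ℤ) * (w (I l).1 : ℤ) := by
        rw [← hwN (I l).1]
        push_cast
        rfl
      rw [h6c]
      change ((N (I l).1 : ℤ) + u (I l).1 (jp.comp (σ • I l).2)) * (w (I l).1 : ℤ) =
        (N (I l).1 : ℤ) * (w (I l).1 : ℤ) + (w (I l).1 : ℤ) * u (I l).1 (jp.comp (σ • I l).2)
      ring
    rw [Finset.prod_congr rfl (fun l _ => h6 l), ← zpow_natCast] at h5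
    have h7 : ∀ s : Finset (Fin m × Fin 2), ∏ l ∈ s, Q ^ ((N' : ℤ) + E (σ • I l)) =
        Q ^ (∑ l ∈ s, ((N' : ℤ) + E (σ • I l))) := by
      intro s
      induction s using Finset.induction_on with
      | empty => rw [Finset.prod_empty, Finset.sum_empty, zpow_zero]
      | insert l s hl ih =>
        rw [Finset.prod_insert hl, Finset.sum_insert hl, ih]
        exact (zpow_add₀ h0.ne' _ _).symm
    rw [h7] at h5
    have h8 := zpow_inj' h0 h1 h5
    rw [Finset.sum_add_distrib, Finset.sum_const, Finset.card_univ, Fintype.card_prod,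
      Fintype.card_fin, Fintype.card_fin, nsmul_eq_mul] at h8
    push_cast at h8
    linarith
  let c : (Σ i, (F i →+* L)) → ℤ := fun y => (w y.1 : ℤ) *
    (((Finset.univ.filter (fun l => I l = y)).card : ℤ) -
    ((Finset.univ.filter (fun l => I l = bar y)).card : ℤ))
  have hc : ∀ y, c (bar y) = -c y := by
    intro y
    simp only [c, bar_bar]
    change (w y.1 : ℤ) * _ = _
    ring
  have hcount : ∀ E : (Σ i, (F i →+* L)) → ℤ,
      ∑ y, ((Finset.univ.filter (fun l => I l = y)).card : ℤ) * E y = ∑ l, E (I l) := by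
    intro E
    have h2 : ∀ y, ((Finset.univ.filter (fun l => I l = y)).card : ℤ) * E y =
        ∑ l, if I l = y then E y else 0 := by
      intro y
      rw [← Finset.sum_filter, Finset.sum_const, nsmul_eq_mul]
    rw [Finset.sum_congr rfl (fun y _ => h2 y), Finset.sum_comm]
    refine Finset.sum_congr rfl fun l _ => ?_
    rw [Finset.sum_ite_eq, if_pos (Finset.mem_univ _)]
  have hmain : ∀ i x, c ⟨i, x⟩ = 0 := by
    refine core_fam (G := L ≃ₐ[ℚ] L) (fun i => F i →+* L) (fun i => cbar)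
      (fun i => cbar_cbar) (fun i => cbar_ne) (fun g i φ => rfl) d
      ?_ e he (fun i φ => hu1 _ _) ?_ (fun i x => c ⟨i, x⟩) (fun i x => hc ⟨i, x⟩) ?_
    · intro i
      rw [card_emb j (h i), hdeg, pow_succ, mul_comm]
    · intro S hS
      by_contra hall
      push Not at hall
      apply hdisc S hS
      refine isSquare_of_sign j F h S ?_
      intro σ
      have h2 := hall σ
      rw [Nat.not_odd_iff_even] at h2
      have h3 : ∀ i ∈ S, (Equiv.Perm.sign (MulAction.toPerm σ : Equiv.Perm (F i →+* L)) : ℤ) =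
          (-1) ^ ((half (e i)).filter (fun φ => σ • φ ∉ half (e i))).card := by
        intro i _
        exact sign_of_half (fun φ => cbar_cbar φ) (half (e i))
          (isHalf_half (he i) (fun φ => hu1 _ _)) (MulAction.toPerm σ) (fun φ => rfl)
      rw [Finset.prod_congr rfl h3, Finset.prod_pow_eq_pow_sum, h2.neg_one_pow]
    · intro σ
      have h0' : ∑ i, ∑ x : (F i →+* L), c ⟨i, x⟩ * e i (σ • x) =
          ∑ y : Σ i, (F i →+* L), c y * e y.1 (σ • y.2) := by
        rw [Fintype.sum_sigma]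
      rw [h0']
      have h2 : ∀ y : Σ i, (F i →+* L), c y * e y.1 (σ • y.2) =
          ((Finset.univ.filter (fun l => I l = y)).card : ℤ) * E (σ • y) -
          ((Finset.univ.filter (fun l => I l = bar y)).card : ℤ) * E (σ • y) := by
        intro y
        change (w y.1 : ℤ) * _ * e y.1 (σ • y.2) =
          _ * ((w y.1 : ℤ) * e y.1 (σ • y.2)) - _ * ((w y.1 : ℤ) * e y.1 (σ • y.2))
        ring
      rw [Finset.sum_congr rfl (fun y _ => h2 y), Finset.sum_sub_distrib,
        hcount (fun y => E (σ • y)), hrel0 σ]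
      have h3 : ∑ y, ((Finset.univ.filter (fun l => I l = bar y)).card : ℤ) * E (σ • y) =
          ∑ y, ((Finset.univ.filter (fun l => I l = y)).card : ℤ) * E (σ • bar y) := by
        let B : (Σ i, (F i →+* L)) ≃ (Σ i, (F i →+* L)) := ⟨bar, bar, bar_bar, bar_bar⟩
        rw [← Equiv.sum_comp B]
        refine Finset.sum_congr rfl fun y _ => ?_
        change ((Finset.univ.filter (fun l => I l = bar (bar y))).card : ℤ) * E (σ • bar y) = _
        rw [bar_bar]
      rw [h3, hcount (fun y => E (σ • bar y))]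
      have h4 : ∀ l, E (σ • bar (I l)) = -E (σ • I l) := by
        intro l
        have h5 := he _ (σ • (I l).2)
        change (w (I l).1 : ℤ) * e (I l).1 (cbar (σ • (I l).2)) =
          -((w (I l).1 : ℤ) * e (I l).1 (σ • (I l).2))
        rw [h5]
        ring
      rw [Finset.sum_congr rfl (fun l _ => h4 l), Finset.sum_neg_distrib, hrel0 σ]
      norm_num
  have h9 : c y = 0 := hmain y.1 y.2
  have h10 : (w y.1 : ℤ) ≠ 0 := by
    have := hwpos y.1
    omega
  have h11 := (mul_eq_zero.1 h9).resolve_left h10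
  omega

/-- The conjugates of the Weil numbers are pairwise different. -/
theorem val_inj (ha : 0 < a) {π : ∀ i, F i}
    (hw : ∀ i, π i * IsCMField.complexConj (F i) (π i) = (p : F i) ^ a)
    (hslope : ∀ i, OddSlopes p a (π i)) {d : ι → ℕ} (hdeg : ∀ i, finrank ℚ (F i) = 2 ^ (d i + 1))
    (hdisc : ∀ S : Finset ι, S.Nonempty → ¬ IsSquare (∏ i ∈ S, discr (F i))) (j : L →+* ℂ)
    (h : ∀ i, ∀ ψ : F i →+* ℂ, ∃ φ : F i →+* L, j.comp φ = ψ) (jp : L →+* PadicAlgCl p) :
    Function.Injective (val π (L := L)) := by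
  classical
  intro x y hxy
  let I : Fin 1 × Fin 2 → (Σ i, (F i →+* L)) := fun l => if l.2 = 0 then x else bar y
  have h1 := balanceG ha hw hslope hdeg hdisc j h jp one_pos I (by
    rw [Fintype.prod_prod_type, Fin.prod_univ_one, Fin.prod_univ_two]
    simp only [I, if_true, Fin.one_eq_zero_iff, OfNat.ofNat_ne_one, if_false, pow_one, mul_one]
    rw [hxy]
    exact val_bar hw y) x
  have h2 : 0 < (Finset.univ.filter (fun l => I l = x)).card := by
    rw [Finset.card_pos]
    exact ⟨(0, 0), by simp [I]⟩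
  rw [h1, Finset.card_pos] at h2
  obtain ⟨l, hl⟩ := h2
  rw [Finset.mem_filter] at hl
  have h3 := hl.2
  simp only [I] at h3
  split_ifs at h3
  · exact absurd h3.symm (bar_ne x)
  · rw [← bar_bar x, ← h3, bar_bar]

end

end Pool.Agent.H204R3.GP
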