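import Mathlib
import Pool.Agent.H194R3.CM.Flip
import Pool.Agent.H204R3.GP.FrobG

/-!
# Tate classes and one Frobenius element: the general criterion, and the flipping criterion
-/

set_option linter.unusedSectionVars false

namespace Pool.Agent.H204R3.GP

open NumberField Module Pool.Agent.H204R3.CM Pool.Agent.H204R3.SP TensorProduct IntermediateField

noncomputable section

/-- The conjugates of the Weil numbers have no multiplicative relations (as far as needed). -/
def Neat (p a : ℕ) {ι : Type*} {F : ι → Type*} [∀ i, Field (F i)] [∀ i, NumberField (F i)]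
    [∀ i, IsCMField (F i)] (π : ∀ i, F i) (L : Type*) [Field L] : Prop := by
  classical
  exact ∀ (m M : ℕ), 0 < M → ∀ I : Fin m × Fin 2 → (Σ i, (F i →+* L)),
    ∏ l, (val π (I l)) ^ M = ((p : L) ^ a) ^ (m * M) → ∀ y,
      (Finset.univ.filter (fun l => I l = y)).card =
        (Finset.univ.filter (fun l => I l = bar y)).card

theorem val_inj_of_neat {p a : ℕ} {ι : Type*} {F : ι → Type*} [∀ i, Field (F i)]
    [∀ i, NumberField (F i)] [∀ i, IsCMField (F i)] {π : ∀ i, F i} {L : Type*} [Field L]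
    (hw : ∀ i, π i * IsCMField.complexConj (F i) (π i) = (p : F i) ^ a) (hneat : Neat p a π L) :
    Function.Injective (val π (L := L)) := by
  classical
  intro x y hxy
  let I : Fin 1 × Fin 2 → (Σ i, (F i →+* L)) := fun l => if l.2 = 0 then x else bar y
  have h1 := hneat 1 1 one_pos I (by
    rw [Fintype.prod_prod_type, Fin.prod_univ_one, Fin.prod_univ_two]
    simp only [I, if_true, Fin.one_eq_zero_iff, OfNat.ofNat_ne_one, if_false, pow_one, mul_one]
    rw [hxy]
    change y.2 (π y.1) * y.2 (IsCMField.complexConj (F y.1) (π y.1)) = _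
    rw [← map_mul, hw, map_pow, map_natCast]) x
  have h2 : 0 < (Finset.univ.filter (fun l => I l = x)).card := by
    rw [Finset.card_pos]
    exact ⟨(0, 0), by simp [I]⟩
  rw [h1, Finset.card_pos] at h2
  obtain ⟨l, hl⟩ := h2
  rw [Finset.mem_filter] at hl
  have h3 := hl.2
  simp only [I] at h3
  split_ifs at h3
  · exact absurd h3.symm (bar_ne x)
  · rw [← bar_bar x, ← h3, bar_bar]

/-- The main theorem: Tate forms are combinations of products of Tate forms of degree two. -/
theorem tate_of_neat {k : Type*} [Field k] [CharZero k] {V : Type*} [AddCommGroup V]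
    [Module k V] [FiniteDimensional k V]
    {p : ℕ} [Fact p.Prime] {a : ℕ} (ha : 0 < a)
    {ι : Type*} [Fintype ι] {F : ι → Type*} [∀ i, Field (F i)] [∀ i, NumberField (F i)]
    [∀ i, IsCMField (F i)] {π : ∀ i, F i} (hgen : ∀ i, ℚ⟮π i⟯ = ⊤)
    (hw : ∀ i, π i * IsCMField.complexConj (F i) (π i) = (p : F i) ^ a)
    {L : Type*} [Field L] [NumberField L] [IsGalois ℚ L] (j : L →+* ℂ)
    (h : ∀ i, ∀ ψ : F i →+* ℂ, ∃ φ : F i →+* L, j.comp φ = ψ) (hneat : Neat p a π L)
    {Γ : Type*} [Group Γ] (ρ : Representation k Γ V) (χ : Γ →* k)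
    (ω : V →ₗ[k] V →ₗ[k] k) (halt : ∀ v, ω v v = 0) (hnd : ∀ u, (∀ v, ω v u = 0) → u = 0)
    (hωρ : ∀ s u v, ω (ρ s u) (ρ s v) = χ s * ω u v)
    (hss : ∀ Δ : Subgroup Γ, Δ.FiniteIndex → SemiUnder (ρ '' (Δ : Set Γ)))
    (γ : Γ) (hχ : χ γ = (p : k) ^ a)
    (hγ : (ρ γ).charpoly = ∏ i, (minpoly ℚ (π i)).map (algebraMap ℚ k))
    {m : ℕ} (φ : MultilinearMap k (fun _ : Fin m × Fin 2 => V) k) (hφ : IsTate ρ χ m φ) :
    φ ∈ Submodule.span k (PT ρ χ m) := by
  classical
  obtain ⟨Ω, hΩ, ⟨jΩ⟩⟩ := exists_finite_ext k L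
  have hinjv := val_inj_of_neat hw hneat
  have hcardE : ∀ i, Fintype.card (F i →+* L) = finrank ℚ (F i) := fun i => card_emb j (h i)
  have hanti : ∀ u v, ω u v = -ω v u := by
    intro u v
    have h1 := halt (u + v)
    simp only [map_add, LinearMap.add_apply, halt, zero_add, add_zero] at h1
    exact eq_neg_of_add_eq_zero_left (by rw [← h1]; ring)
  have hnd' : ∀ u, (∀ v, ω u v = 0) → u = 0 := by
    intro u hu
    apply hnd
    intro v
    rw [hanti, hu, neg_zero]
  let b := Module.finBasis k V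
  have hTchar : (bcr ρ Ω γ).charpoly = ∏ i, (minpoly ℚ (π i)).map (algebraMap ℚ Ω) := by
    change ((ρ γ).baseChange Ω).charpoly = _
    rw [LinearMap.charpoly_baseChange, hγ, Polynomial.map_prod]
    refine Finset.prod_congr rfl fun i _ => ?_
    rw [Polynomial.map_map]
    congr 1
  obtain ⟨e, he⟩ := exists_eigenbasisG (Ω := Ω) (L := L) hgen jΩ hcardE hinjv
    (bcr ρ Ω γ) hTchar
  have hantiΩ : ∀ u v, bcb Ω ω u v = -bcb Ω ω v u := by
    have h1 : bcb Ω ω = -(bcb Ω ω).flip := by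
      refine (b.baseChange Ω).ext fun i => (b.baseChange Ω).ext fun l => ?_
      rw [LinearMap.neg_apply, LinearMap.neg_apply, LinearMap.flip_apply, Basis.baseChange_apply,
        Basis.baseChange_apply, bcb_one, bcb_one, hanti, map_neg]
    intro u v
    exact congrArg (fun F : (Ω ⊗[k] V) →ₗ[Ω] (Ω ⊗[k] V) →ₗ[Ω] Ω => F u v) h1
  have hq : ∀ x y : Σ i, (F i →+* L), y ≠ bar x → bcb Ω ω (e x) (e y) = 0 := by
    intro x y hxy
    by_contra h0
    apply hxy
    have h1 := bcb_inv ρ χ (Ω := Ω) ω hωρ γ (e x) (e y)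
    rw [he, he, map_smul, map_smul, LinearMap.smul_apply, smul_eq_mul, smul_eq_mul, bcc_apply, hχ,
      ← mul_assoc] at h1
    have h2 := mul_right_cancel₀ h0 h1
    have h3 : jΩ (val π y * val π x) = jΩ ((p : L) ^ a) := by
      simp only [map_mul, map_pow, map_natCast] at h2 ⊢
      exact h2
    have h4 := jΩ.injective h3
    have h5 := val_bar (L := L) hw x
    have hx0 : val π x ≠ 0 := by
      intro h6
      rw [h6, zero_mul] at h5
      exact pow_ne_zero a (Nat.cast_ne_zero.2 (Fact.out : p.Prime).ne_zero) h5.symm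
    apply hinjv
    apply mul_left_cancel₀ hx0
    rw [h5, mul_comm, h4]
  let jj : (Σ i, (F i →+* L)) → Ω := fun x => bcb Ω ω (e x) (e (bar x))
  have hjj : ∀ x, jj (bar x) = -jj x := by
    intro x
    simp only [jj, bar_bar]
    exact hantiΩ _ _
  have hj0 : ∀ x, jj x ≠ 0 := by
    intro x h0
    apply e.ne_zero (bar x)
    apply bcb_nondeg b ω hnd hnd'
    have h1 : (bcb Ω ω).flip (e (bar x)) = 0 := by
      refine e.ext fun y => ?_
      rw [LinearMap.flip_apply, LinearMap.zero_apply]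
      by_cases hy : bar x = bar y
      · have h2 : y = x := by rw [← bar_bar y, ← hy, bar_bar]
        rw [h2]
        exact h0
      · exact hq _ _ hy
    intro v
    exact congrArg (fun F : (Ω ⊗[k] V) →ₗ[Ω] Ω => F v) h1
  have hω : ∀ x y, bcb Ω ω (e x) (e y) = JJ bar jj x y := by
    intro x y
    unfold JJ
    by_cases hy : y = bar x
    · rw [if_pos hy, hy]
    · rw [if_neg hy, hq x y hy]
  have hbal : ∀ (m : ℕ) (φ : MultilinearMap Ω (fun _ : Fin m × Fin 2 => Ω ⊗[k] V) Ω),
      IsTate (bcr ρ Ω) (bcc χ Ω) m φ →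
      ∀ I : Fin m × Fin 2 → (Σ i, (F i →+* L)), φ (fun l => e (I l)) ≠ 0 → ∀ y,
        (Finset.univ.filter (fun l => I l = y)).card =
          (Finset.univ.filter (fun l => I l = bar y)).card := by
    rintro m φ ⟨Δ, hΔ, hφ⟩ I hI y
    obtain ⟨M, hM, -, hMΔ⟩ := Subgroup.exists_pow_mem_of_index_ne_zero hΔ.index_ne_zero γ
    refine hneat m M hM I ?_ y
    have h1 := hφ (γ ^ M) hMΔ (fun l => e (I l))
    have h2 : ∀ (n : ℕ) (x : Σ i, (F i →+* L)),
        bcr ρ Ω (γ ^ n) (e x) = (jΩ (val π x)) ^ n • e x := by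
      intro n x
      induction n with
      | zero => rw [pow_zero, pow_zero, one_smul, map_one]; rfl
      | succ n ih =>
        rw [pow_succ, map_mul, pow_succ, Module.End.mul_apply, he]
        change bcr ρ Ω (γ ^ n) ((jΩ (val π x)) • e x) = _
        rw [map_smul, ih, smul_smul, mul_comm]
    simp only [h2] at h1
    rw [MultilinearMap.map_smul_univ, smul_eq_mul, map_pow, bcc_apply, hχ] at h1
    have h3 := mul_right_cancel₀ hI h1
    have h4 : jΩ (∏ l, (val π (I l)) ^ M) = jΩ (((p : L) ^ a) ^ (m * M)) := by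
      simp only [map_prod, map_pow, map_natCast] at h3 ⊢
      rw [h3, ← pow_mul, ← pow_mul, ← pow_mul]
      congr 1
      ring
    exact jΩ.injective h4
  refine tate_descentG (Ω := Ω) b ρ χ ?_ φ hφ
  intro φ' hφ'
  refine tateG_mem e bar_bar bar_ne hjj hj0 (bcb Ω ω) hω (bcr ρ Ω) (bcc χ Ω)
    (bcb_inv ρ χ ω hωρ) ?_ hbal φ' hφ'
  intro Δ hΔ U hU
  obtain ⟨P, hP1, hP2, hP3⟩ := exists_proj_baseChange (Ω := Ω) (ρ '' (Δ : Set Γ)) (hss Δ hΔ) U
    (by
      rintro _ ⟨s, hs, rfl⟩ u hu
      exact hU s hs u hu)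
  exact ⟨P, hP1, hP2, fun s hs v => hP3 _ ⟨s, hs, rfl⟩ v⟩


/-- The group-theoretic core: if every pair is flipped, an antisymmetric vector orthogonal to all
translates of an antisymmetric vector `u` (not zero on any orbit) is zero. -/
theorem core_flipR {X : Type*} [Fintype X] {G : Type*} [Group G] [Fintype G] [MulAction G X]
    (inv : X → X) (hinv : ∀ x, inv (inv x) = x) (hne : ∀ x, inv x ≠ x)
    (hG : ∀ (g : G) (x : X), g • inv x = inv (g • x))
    (u : X → ℝ) (hua : ∀ x, u (inv x) = -u x) (hu0 : ∀ x, ∃ g : G, u (g • x) ≠ 0)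
    (hflip : ∀ x y, y ≠ x → y ≠ inv x →
      ∃ g : G, (g • x = x ∧ g • y = inv y) ∨ (g • x = inv x ∧ g • y = y) ∨
        (g • x = y ∧ g • y = inv x))
    (c : X → ℝ) (hc : ∀ x, c (inv x) = -c x)
    (hrel : ∀ g : G, ∑ x, c x * u (g • x) = 0) :
    ∀ x, c x = 0 := by
  classical
  let A : X → X → ℝ := fun x y => ∑ g : G, u (g • x) * u (g • y)
  have hAsymm : ∀ x y, A x y = A y x := by
    intro x y
    exact Finset.sum_congr rfl fun g _ => mul_comm _ _
  have hAinv : ∀ (h : G) x y, A (h • x) (h • y) = A x y := by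
    intro h x y
    simp only [A, ← mul_smul]
    exact Fintype.sum_equiv (Equiv.mulRight h) _ _ fun g => rfl
  have hA1 : ∀ x y, A (inv x) y = -A x y := by
    intro x y
    simp only [A, hG, hua, neg_mul, Finset.sum_neg_distrib]
  have hA2 : ∀ x y, A x (inv y) = -A x y := by
    intro x y
    simp only [A, hG, hua, mul_neg, Finset.sum_neg_distrib]
  have hA0 : ∀ x y, y ≠ x → y ≠ inv x → A x y = 0 := by
    intro x y h1 h2
    obtain ⟨g, ⟨hg1, hg2⟩ | ⟨hg1, hg2⟩ | ⟨hg1, hg2⟩⟩ := hflip x y h1 h2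
    · have h3 := hAinv g x y
      rw [hg1, hg2, hA2] at h3
      linarith
    · have h3 := hAinv g x y
      rw [hg1, hg2, hA1] at h3
      linarith
    · have h3 := hAinv g x y
      rw [hg1, hg2, hA2, hAsymm] at h3
      linarith
  have hAxx : ∀ x, 0 < A x x := by
    intro x
    obtain ⟨g, hg⟩ := hu0 x
    refine Finset.sum_pos' (fun g _ => mul_self_nonneg _) ⟨g, Finset.mem_univ _, ?_⟩
    exact mul_self_pos.2 hg
  intro y
  have h1 : ∑ x, c x * A x y = 0 := by
    simp only [A, Finset.mul_sum]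
    rw [Finset.sum_comm]
    refine Finset.sum_eq_zero fun g _ => ?_
    have h2 : ∑ x, c x * (u (g • x) * u (g • y)) = (∑ x, c x * u (g • x)) * u (g • y) := by
      rw [Finset.sum_mul]
      exact Finset.sum_congr rfl fun x _ => by ring
    rw [h2, hrel g, zero_mul]
  have h2 : ∑ x, c x * A x y = c y * A y y + c (inv y) * A (inv y) y := by
    rw [← Finset.sum_pair (hne y).symm (f := fun x => c x * A x y)]
    symm
    refine Finset.sum_subset (Finset.subset_univ _) fun x _ hx => ?_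
    simp only [Finset.mem_insert, Finset.mem_singleton, not_or] at hx
    rw [hA0 x y (fun h => hx.1 h.symm) (fun h => hx.2 (by rw [h, hinv])), mul_zero]
  rw [h1, hc, hA1] at h2
  have h3 : c y * A y y = 0 := by linarith
  rcases mul_eq_zero.1 h3 with h | h
  · exact h
  · exact absurd h (hAxx y).ne'

/-- The Weil number `π` is not supersingular: some slope is not `1 / 2`. -/
def NotSupersingular (p a : ℕ) [Fact p.Prime] {F : Type*} [Field F] (π : F) : Prop :=
  ∃ τ : F →+* PadicAlgCl p, ‖τ π‖ ^ 2 ≠ ‖(p : PadicAlgCl p) ^ a‖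

theorem log_relation {p : ℕ} [Fact p.Prime] {a : ℕ} {ι : Type*} [Fintype ι] {F : ι → Type*}
    [∀ i, Field (F i)] [∀ i, NumberField (F i)] [∀ i, IsCMField (F i)] {π : ∀ i, F i}
    {L : Type*} [Field L] [NumberField L] [IsGalois ℚ L] (jp : L →+* PadicAlgCl p)
    (hw : ∀ i, π i * IsCMField.complexConj (F i) (π i) = (p : F i) ^ a)
    {m M : ℕ} (hM : 0 < M) (I : Fin m × Fin 2 → (Σ i, (F i →+* L)))
    (hprod : ∏ l, (val π (I l)) ^ M = ((p : L) ^ a) ^ (m * M)) (σ : L ≃ₐ[ℚ] L) :
    ∑ l, (2 * Real.log ‖jp (val π (σ • I l))‖ - Real.log ‖(p : PadicAlgCl p) ^ a‖) = 0 := by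
  have h0 := norm_q_pos p a
  set Q : ℝ := ‖(p : PadicAlgCl p) ^ a‖ with hQ
  have hne : ∀ x : Σ i, (F i →+* L), ‖jp (val π x)‖ ≠ 0 := by
    intro x h1
    rw [norm_eq_zero] at h1
    have h2 := val_bar (L := L) hw x
    have h3 : val π x = 0 := jp.injective (by rw [h1, map_zero])
    rw [h3, zero_mul] at h2
    exact pow_ne_zero a (Nat.cast_ne_zero.2 (Fact.out : p.Prime).ne_zero) h2.symm
  have h2 : ∏ l, jp (val π (σ • I l)) ^ M = ((p : PadicAlgCl p) ^ a) ^ (m * M) := by
    have h3 := congrArg (fun x => jp (σ x)) hprod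
    simp only [map_prod, map_pow, map_natCast] at h3
    exact h3
  have h3 := congrArg (fun x => ‖x‖) h2
  simp only [norm_prod, norm_pow (_ : PadicAlgCl p)] at h3
  rw [Finset.prod_pow, ← norm_pow, ← hQ, pow_mul] at h3
  have h4 : ∏ l, ‖jp (val π (σ • I l))‖ = Q ^ m :=
    (pow_left_inj₀ (Finset.prod_nonneg fun _ _ => norm_nonneg _) (pow_nonneg h0.le _) hM.ne').1 h3
  have h5 := congrArg Real.log h4
  rw [Real.log_prod (fun l _ => hne _), Real.log_pow] at h5
  rw [Finset.sum_sub_distrib, ← Finset.mul_sum, h5, Finset.sum_const, Finset.card_univ,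
    Fintype.card_prod, Fintype.card_fin, Fintype.card_fin, nsmul_eq_mul]
  push_cast
  ring

/-- All embeddings into another algebraically closed field factor through `L`. -/
theorem exists_factor {E : Type*} [Field E] [NumberField E] {L : Type*} [Field L] [NumberField L]
    (j : L →+* ℂ) (h : ∀ ψ : E →+* ℂ, ∃ φ : E →+* L, j.comp φ = ψ)
    {A : Type*} [Field A] [CharZero A] [IsAlgClosed A] (jp : L →+* A) (τ : E →+* A) :
    ∃ φ : E →+* L, jp.comp φ = τ := by
  classical
  have hinj : Function.Injective (fun φ : E →+* L => jp.comp φ) := by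
    intro φ ψ hh
    ext x
    exact jp.injective (RingHom.congr_fun hh x)
  have hbij : Function.Bijective (fun φ : E →+* L => jp.comp φ) := by
    rw [Fintype.bijective_iff_injective_and_card]
    exact ⟨hinj, by rw [card_emb j h, Embeddings.card E A]⟩
  exact hbij.2 τ

/-- The flipping criterion. -/
theorem neat_of_flip {p : ℕ} [Fact p.Prime] {a : ℕ} {ι : Type*} [Fintype ι] {F : ι → Type*}
    [∀ i, Field (F i)] [∀ i, NumberField (F i)] [∀ i, IsCMField (F i)] {π : ∀ i, F i}
    {L : Type*} [Field L] [NumberField L] [IsGalois ℚ L] (j : L →+* ℂ)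
    (h : ∀ i, ∀ ψ : F i →+* ℂ, ∃ φ : F i →+* L, j.comp φ = ψ) (jp : L →+* PadicAlgCl p)
    (hw : ∀ i, π i * IsCMField.complexConj (F i) (π i) = (p : F i) ^ a)
    (hns : ∀ i, NotSupersingular p a (π i))
    (hflip : ∀ x y : Σ i, (F i →+* ℂ), y ≠ x → y ≠ H194R3.CM.bar x → H194R3.CM.Flipped x y) :
    Neat p a π L := by
  classical
  intro m M hM I hprod y
  have h0 := norm_q_pos p a
  set Q : ℝ := ‖(p : PadicAlgCl p) ^ a‖ with hQ
  let X := Σ i, (F i →+* L)
  let J : X → Σ i, (F i →+* ℂ) := fun x => ⟨x.1, j.comp x.2⟩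
  have hJ : Function.Injective J := by
    rintro ⟨a, φ⟩ ⟨b, ψ⟩ h
    simp only [J, Sigma.mk.injEq] at h
    obtain ⟨rfl, h⟩ := h
    rw [H194R3.CM.comp_injective j (eq_of_heq h)]
  have hJinv : ∀ x : X, J (bar x) = H194R3.CM.bar (J x) := by
    rintro ⟨a, φ⟩
    simp only [J, bar, comp_cbar, H194R3.CM.bar]
  let u : X → ℝ := fun x => 2 * Real.log ‖jp (val π x)‖ - Real.log Q
  have hne : ∀ x : X, ‖jp (val π x)‖ ≠ 0 := by
    intro x h1
    rw [norm_eq_zero] at h1
    have h2 := val_bar (L := L) hw x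
    have h3 : val π x = 0 := jp.injective (by rw [h1, map_zero])
    rw [h3, zero_mul] at h2
    exact pow_ne_zero a (Nat.cast_ne_zero.2 (Fact.out : p.Prime).ne_zero) h2.symm
  have hua : ∀ x, u (bar x) = -u x := by
    intro x
    have h1 := congrArg (fun z => Real.log ‖jp z‖) (val_bar (L := L) hw x)
    simp only [map_mul, norm_mul, map_pow, map_natCast] at h1
    rw [Real.log_mul (hne _) (hne _)] at h1
    simp only [u, hQ]
    linarith
  let c : X → ℝ := fun y => ((Finset.univ.filter (fun l => I l = y)).card : ℝ) -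
    ((Finset.univ.filter (fun l => I l = bar y)).card : ℝ)
  have hcount : ∀ E : X → ℝ,
      ∑ y, ((Finset.univ.filter (fun l => I l = y)).card : ℝ) * E y = ∑ l, E (I l) := by
    intro E
    have h2 : ∀ y, ((Finset.univ.filter (fun l => I l = y)).card : ℝ) * E y =
        ∑ l, if I l = y then E y else 0 := by
      intro y
      rw [← Finset.sum_filter, Finset.sum_const, nsmul_eq_mul]
    rw [Finset.sum_congr rfl (fun y _ => h2 y), Finset.sum_comm]
    refine Finset.sum_congr rfl fun l _ => ?_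
    rw [Finset.sum_ite_eq, if_pos (Finset.mem_univ _)]
  have hrel : ∀ σ : L ≃ₐ[ℚ] L, ∑ y, c y * u (σ • y) = 0 := by
    intro σ
    have h1 := log_relation jp hw hM I hprod σ
    have h2 : ∀ y : X, c y * u (σ • y) =
        ((Finset.univ.filter (fun l => I l = y)).card : ℝ) * u (σ • y) -
        ((Finset.univ.filter (fun l => I l = bar y)).card : ℝ) * u (σ • y) := by
      intro y
      simp only [c]
      ring
    rw [Finset.sum_congr rfl (fun y _ => h2 y), Finset.sum_sub_distrib,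
      hcount (fun y => u (σ • y))]
    have h3 : ∑ y : X, ((Finset.univ.filter (fun l => I l = bar y)).card : ℝ) * u (σ • y) =
        ∑ y : X, ((Finset.univ.filter (fun l => I l = y)).card : ℝ) * u (σ • bar y) := by
      let B : X ≃ X := ⟨bar, bar, bar_bar, bar_bar⟩
      rw [← Equiv.sum_comp B]
      refine Finset.sum_congr rfl fun y _ => ?_
      change ((Finset.univ.filter (fun l => I l = bar (bar y))).card : ℝ) * u (σ • bar y) = _
      rw [bar_bar]
    have h4 : ∀ l, u (σ • bar (I l)) = -u (σ • I l) := fun l => hua (σ • I l)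
    have h5 : ∑ l, u (σ • I l) = 0 := h1
    rw [h3, hcount (fun y => u (σ • bar y)), Finset.sum_congr rfl (fun l _ => h4 l),
      Finset.sum_neg_distrib, h5]
    norm_num
  have hmain : ∀ y, c y = 0 := by
    refine core_flipR (X := X) (G := L ≃ₐ[ℚ] L) bar bar_bar bar_ne (fun g x => rfl) u hua ?_ ?_ c ?_
      hrel
    · intro x
      obtain ⟨τ, hτ⟩ := hns x.1
      obtain ⟨φ, hφ⟩ := exists_factor j (h x.1) jp τ
      obtain ⟨g, hg⟩ := MulAction.exists_smul_eq (L ≃ₐ[ℚ] L) x.2 φ
      refine ⟨g, fun h1 => hτ ?_⟩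
      have h2 : ‖τ (π x.1)‖ = ‖jp (val π (g • x))‖ := by
        rw [← hφ, ← hg]
        rfl
      have h3 : 2 * Real.log ‖jp (val π (g • x))‖ - Real.log Q = 0 := h1
      rw [h2]
      have h4 : Real.log (‖jp (val π (g • x))‖ ^ 2) = Real.log Q := by
        rw [Real.log_pow]
        push_cast
        linarith
      have h5 : 0 < ‖jp (val π (g • x))‖ ^ 2 := pow_pos (norm_pos_iff.2 (norm_ne_zero_iff.1 (hne _))) 2
      exact Real.log_injOn_pos h5 h0 h4
    · intro x y h1 h2
      have h1' : J y ≠ J x := fun h => h1 (hJ h)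
      have h2' : J y ≠ H194R3.CM.bar (J x) := by
        rw [← hJinv]
        exact fun h => h2 (hJ h)
      obtain ⟨τ, hτ⟩ := hflip (J x) (J y) h1' h2'
      obtain ⟨σ, hσ⟩ := H194R3.CM.exists_restrict j τ
      have hJσ : ∀ z : X, J (σ • z) = H194R3.CM.move τ (J z) := by
        rintro ⟨a, φ⟩
        exact congrArg (Sigma.mk a) (H194R3.CM.comp_smul_of_restrict j τ σ hσ φ)
      refine ⟨σ, ?_⟩
      rcases hτ with ⟨h3, h4⟩ | ⟨h3, h4⟩ | ⟨h3, h4⟩
      · refine Or.inl ⟨hJ ?_, hJ ?_⟩
        · rw [hJσ, h3]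
        · rw [hJσ, hJinv, h4]
      · refine Or.inr (Or.inl ⟨hJ ?_, hJ ?_⟩)
        · rw [hJσ, hJinv, h3]
        · rw [hJσ, h4]
      · refine Or.inr (Or.inr ⟨hJ ?_, hJ ?_⟩)
        · rw [hJσ, h3]
        · rw [hJσ, hJinv, h4]
    · intro y
      simp only [c, bar_bar]
      ring
  have h9 := hmain y
  simp only [c] at h9
  have h10 : ((Finset.univ.filter (fun l => I l = y)).card : ℝ) =
    ((Finset.univ.filter (fun l => I l = bar y)).card : ℝ) := by linarith
  exact_mod_cast h10

end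

end Pool.Agent.H204R3.GP
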