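import Mathlib
import Pool.Agent.H204R3.CM.Fixed

/-!
# The combinatorial core for families, at an odd prime, for arbitrary antisymmetric vectors
-/

namespace Pool.Agent.H204R3.GP

open MulAction Pool.Agent.H925R2 Pool.Agent.H204R3.CM

section

variable {ι : Type*} [Fintype ι] [DecidableEq ι] {G : Type*} [Group G] [Finite G]
  (Y : ι → Type*) [∀ i, Fintype (Y i)] [∀ i, DecidableEq (Y i)] [∀ i, MulAction G (Y i)]

/-- A relation between all translates of an antisymmetric vector `e` on the sets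
`Y i` of cardinality `2 r ^ k i`, `r` odd, is trivial, if the `Y i` have half systems `O i` which
are blocks, exchanged with their complements according to distinct characters `χ i` of the group,
and the sum of the vector over `O i` is not divisible by `r`. -/
theorem core_sig [∀ i, IsPretransitive G (Y i)] (inv : ∀ i, Y i → Y i)
    (hinv : ∀ i x, inv i (inv i x) = x) (hne : ∀ i x, inv i x ≠ x)
    (hG : ∀ (g : G) (i : ι) (x : Y i), g • inv i x = inv i (g • x))
    (r : ℕ) [Fact r.Prime] (hr : r ≠ 2)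
    (k : ι → ℕ) (hcard : ∀ i, Fintype.card (Y i) = 2 * r ^ k i)
    (e0 : ∀ i, Y i → ℤ) (he0 : ∀ i x, e0 i (inv i x) = -e0 i x)
    (O : ∀ i, Finset (Y i)) (hO : ∀ i, IsHalf (inv i) (O i))
    (χ : ι → G →* ℤˣ) (hχ : Function.Injective χ)
    (hOχ : ∀ (g : G) (i : ι) (x : Y i), x ∈ O i → (g • x ∈ O i ↔ χ i g = 1))
    (hsum : ∀ i, ¬ (r : ℤ) ∣ ∑ x ∈ O i, e0 i x)
    (c : ∀ i, Y i → ℤ) (hc : ∀ i x, c i (inv i x) = -c i x)
    (hrel : ∀ g : G, ∑ i, ∑ x, c i x * e0 i (g • x) = 0) :
    ∀ i x, c i x = 0 := by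
  classical
  by_contra hcon
  push Not at hcon
  obtain ⟨i₀, x₀, hx₀⟩ := hcon
  obtain ⟨S⟩ : Nonempty (Sylow r G) := inferInstance
  let I : (Σ i, Y i) → (Σ i, Y i) := fun x => ⟨x.1, inv x.1 x.2⟩
  let e : (Σ i, Y i) → ℤ := fun x => e0 x.1 x.2
  have he : ∀ x, e (I x) = -e x := by
    rintro ⟨i, x⟩
    exact he0 i x
  have hI2 : ∀ x, I (I x) = x := by
    rintro ⟨i, x⟩
    simp only [I, hinv]
  have hIG : ∀ (g : G) (x : Σ i, Y i), g • I x = I (g • x) := by
    rintro g ⟨i, x⟩
    simp only [I, Sigma.smul_mk, hG]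
  obtain ⟨f, ⟨y₀, hy₀⟩, hf1, hf2, hf3⟩ := exists_fixed (inv := I) hI2 hIG r S
    {u | ∃ g : G, ∀ x, u x = e (g • x)}
    (by
      rintro u ⟨g, hu⟩ t
      refine ⟨g * t, fun x => ?_⟩
      change u (t • x) = _
      rw [hu (t • x), mul_smul])
    (by
      rintro u ⟨g, hu⟩ x
      rw [hu, hu, hIG, he])
    (fun x => c x.1 x.2) (by
      rintro ⟨i, x⟩
      exact hc i x)
    (by
      rintro u ⟨g, hu⟩
      simp only [hu]
      rw [Fintype.sum_sigma]
      exact hrel g)
    ⟨⟨i₀, x₀⟩, hx₀⟩
  -- the characters are trivial on `S`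
  have hSχ : ∀ (s : S) i, χ i s = 1 := by
    intro s i
    rcases Int.units_eq_one_or (χ i (s : G)) with h | h
    · exact h
    · exfalso
      obtain ⟨n, hn⟩ := S.isPGroup' s
      have h1 : (χ i (s : G)) ^ (r ^ n) = 1 := by
        rw [← map_pow]
        have h2 : ((s : G)) ^ (r ^ n) = 1 := by
          have h3 := congrArg (Subtype.val : S → G) hn
          rwa [SubmonoidClass.coe_pow] at h3
        rw [h2, map_one]
      have hodd : Odd (r ^ n) := ((Fact.out : r.Prime).odd_of_ne_two hr).pow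
      rw [h, hodd.neg_one_pow] at h1
      exact absurd h1 (by decide)
  have hconst : ∀ i (x y : Y i), x ∈ O i → y ∈ O i → f ⟨i, x⟩ = f ⟨i, y⟩ := by
    intro i x y hx hy
    obtain ⟨s, hs | hs⟩ := sylow_pairs (hinv i) (hne i) (fun g x => hG g i x) r (k i) (hcard i) S x y
    · rw [← hf2 s ⟨i, x⟩]
      congr 1
      exact congrArg (Sigma.mk i) hs
    · exfalso
      have h1 : (s : G) • x ∈ O i := (hOχ s i x hx).2 (hSχ s i)
      have h2 : (s : G) • x = inv i y := hs
      rw [h2] at h1
      exact ((hO i y).1 hy) h1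
  have hne0 : ∀ i, (O i).Nonempty := by
    intro i
    by_contra h
    rw [Finset.not_nonempty_iff_eq_empty] at h
    apply hsum i
    rw [h, Finset.sum_empty]
    exact dvd_zero _
  choose b hb using hne0
  have hhalf : IsHalf I (Finset.univ.sigma O) := by
    rintro ⟨i, x⟩
    simp only [Finset.mem_sigma, Finset.mem_univ, true_and, I]
    exact hO i x
  -- the relation between characters
  let A : ι → ℤ := fun i => ∑ x ∈ O i, e0 i x
  have hrel' : ∀ g : G, ∑ i, (f ⟨i, b i⟩ * (A i : ZMod r)) * ((χ i g : ℤ) : ZMod r) = 0 := by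
    intro g
    have h1 := hf3 (fun x => e (g • x)) ⟨g, fun x => rfl⟩ _ hhalf
    rw [Finset.sum_sigma] at h1
    rw [← h1]
    refine Finset.sum_congr rfl fun i _ => ?_
    have h2 : ∑ x ∈ O i, f ⟨i, x⟩ * ((e (g • (⟨i, x⟩ : Σ i, Y i)) : ℤ) : ZMod r) =
        f ⟨i, b i⟩ * ((∑ x ∈ O i, e (g • (⟨i, x⟩ : Σ i, Y i)) : ℤ) : ZMod r) := by
      rw [Int.cast_sum, Finset.mul_sum]
      exact Finset.sum_congr rfl fun x hx => by rw [hconst i x (b i) hx (hb i)]
    rw [h2, mul_assoc]
    congr 1
    have h3 : ∑ x ∈ O i, e (g • (⟨i, x⟩ : Σ i, Y i)) = A i * (χ i g : ℤ) := by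
      rcases Int.units_eq_one_or (χ i g) with h | h
      · rw [h, Units.val_one, mul_one]
        refine Finset.sum_bij (fun x _ => g • x) (fun x hx => (hOχ g i x hx).2 h)
          (fun x _ y _ hxy => smul_left_cancel g hxy) (fun y hy => ?_) (fun x _ => rfl)
        refine ⟨g⁻¹ • y, (hOχ g⁻¹ i y hy).2 (by rw [map_inv, h, inv_one]), by simp⟩
      · rw [h]
        have h4 : ∀ x ∈ O i, g • x ∉ O i := by
          intro x hx h5
          rw [(hOχ g i x hx).1 h5] at h
          exact absurd h (by decide)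
        have h6 : ∑ x ∈ O i, e (g • (⟨i, x⟩ : Σ i, Y i)) =
            ∑ x ∈ O i, -(e0 i x) := by
          refine Finset.sum_bij (fun x _ => inv i (g • x)) (fun x hx => ?_)
            (fun x _ y _ hxy => ?_) (fun y hy => ?_) (fun x _ => ?_)
          · by_contra h7
            exact h4 x hx ((hO i _).2 h7)
          · have h7 := congrArg (inv i) hxy
            rw [hinv, hinv] at h7
            exact smul_left_cancel g h7
          · refine ⟨g⁻¹ • inv i y, ?_, ?_⟩
            · rw [hG]
              by_contra h7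
              have h8 : g⁻¹ • y ∈ O i := (hO i _).2 h7
              have h9 := (hOχ g⁻¹ i y hy).1 h8
              rw [map_inv, h] at h9
              exact absurd h9 (by decide)
            · rw [smul_inv_smul, hinv]
          · have h7 := he (g • (⟨i, x⟩ : Σ i, Y i))
            have h8 : e (I (g • (⟨i, x⟩ : Σ i, Y i))) = e0 i (inv i (g • x)) := rfl
            rw [← h8, h7, neg_neg]
        rw [h6, Finset.sum_neg_distrib]
        push_cast
        ring
    rw [h3]
    push_cast
    rfl
  -- linear independence of characters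
  let χ' : ι → G →* ZMod r := fun i =>
    ((Int.castRingHom (ZMod r) : ℤ →* ZMod r).comp (Units.coeHom ℤ)).comp (χ i)
  have h2ne : (2 : ZMod r) ≠ 0 := by
    intro h
    have h1 : ((2 : ℕ) : ZMod r) = 0 := by exact_mod_cast h
    rw [ZMod.natCast_eq_zero_iff] at h1
    exact hr ((Nat.prime_dvd_prime_iff_eq (Fact.out : r.Prime) Nat.prime_two).1 h1)
  have hχ' : Function.Injective χ' := by
    intro i i' h
    apply hχ
    ext g
    have h1 : (((χ i g : ℤ)) : ZMod r) = (((χ i' g : ℤ)) : ZMod r) := DFunLike.congr_fun h g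
    rcases Int.units_eq_one_or (χ i g) with h3 | h3 <;>
      rcases Int.units_eq_one_or (χ i' g) with h4 | h4
    · rw [h3, h4]
    · exfalso
      rw [h3, h4] at h1
      push_cast at h1
      apply h2ne
      linear_combination h1
    · exfalso
      rw [h3, h4] at h1
      push_cast at h1
      apply h2ne
      linear_combination -h1
    · rw [h3, h4]
  have hli := (linearIndependent_monoidHom G (ZMod r)).comp χ' hχ'
  rw [Fintype.linearIndependent_iff] at hli
  have hz := hli (fun i => f ⟨i, b i⟩ * (A i : ZMod r)) (by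
    funext g
    rw [Finset.sum_apply, Pi.zero_apply, ← hrel' g]
    rfl)
  -- conclusion
  obtain ⟨i, y⟩ := y₀
  have h1 := hz i
  have h2 : (A i : ZMod r) ≠ 0 := by
    intro h
    exact hsum i ((ZMod.intCast_zmod_eq_zero_iff_dvd _ _).1 h)
  have h3 : f ⟨i, b i⟩ = 0 := (mul_eq_zero.1 h1).resolve_right h2
  apply hy₀
  by_cases hy : y ∈ O i
  · rw [hconst i y (b i) hy (hb i), h3]
  · have h4 : inv i y ∈ O i := by
      by_contra h5
      exact hy ((hO i y).2 h5)
    have h5 : f (I ⟨i, y⟩) = 0 := by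
      change f ⟨i, inv i y⟩ = 0
      rw [hconst i _ (b i) h4 (hb i), h3]
    rw [hf1, neg_eq_zero] at h5
    exact h5

end

end Pool.Agent.H204R3.GP
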