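import Mathlib
import Pool.Agent.H204R3.GP.Neat

/-!
# Sign vectors on embeddings and imaginary quadratic subfields
-/

set_option linter.unusedSectionVars false
set_option linter.unusedVariables false

namespace Pool.Agent.H204R3.GP

open NumberField Module Pool.Agent.H204R3.CM Pool.Agent.H204R3.SP

noncomputable section

/-- If the pairs of elements of different blocks are flipped, a relation between the translates of
`u` splits into relations on the blocks. -/
theorem core_block_real {X I : Type*} [Fintype X] [DecidableEq X] [DecidableEq I] {G : Type*}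
    [Group G] [Fintype G] [MulAction G X]
    (inv : X → X) (hG : ∀ (g : G) (x : X), g • inv x = inv (g • x)) (p : X → I)
    (u : X → ℝ) (hua : ∀ x, u (inv x) = -u x)
    (hflip : ∀ x y, p y ≠ p x →
      ∃ g : G, (g • x = x ∧ g • y = inv y) ∨ (g • x = inv x ∧ g • y = y))
    (c : X → ℝ) (hrel : ∀ g : G, ∑ x, c x * u (g • x) = 0) (i : I) (g : G) :
    ∑ x ∈ Finset.univ.filter (fun x => p x = i), c x * u (g • x) = 0 := by
  classical
  let A : X → X → ℝ := fun x y => ∑ g : G, u (g • x) * u (g • y)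
  have hAinv : ∀ (h : G) x y, A (h • x) (h • y) = A x y := by
    intro h x y
    simp only [A, ← mul_smul]
    exact Fintype.sum_equiv (Equiv.mulRight h) _ _ fun g => rfl
  have hA1 : ∀ x y, A (inv x) y = -A x y := by
    intro x y
    simp only [A, hG, hua, neg_mul, Finset.sum_neg_distrib]
  have hA2 : ∀ x y, A x (inv y) = -A x y := by
    intro x y
    simp only [A, hG, hua, mul_neg, Finset.sum_neg_distrib]
  have hA0 : ∀ x y, p y ≠ p x → A x y = 0 := by
    intro x y h1
    obtain ⟨g, ⟨hg1, hg2⟩ | ⟨hg1, hg2⟩⟩ := hflip x y h1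
    · have h3 := hAinv g x y
      rw [hg1, hg2, hA2] at h3
      linarith
    · have h3 := hAinv g x y
      rw [hg1, hg2, hA1] at h3
      linarith
  have h1 : ∀ y, ∑ x, c x * A x y = 0 := by
    intro y
    simp only [A, Finset.mul_sum]
    rw [Finset.sum_comm]
    refine Finset.sum_eq_zero fun g _ => ?_
    have h2 : ∑ x, c x * (u (g • x) * u (g • y)) = (∑ x, c x * u (g • x)) * u (g • y) := by
      rw [Finset.sum_mul]
      exact Finset.sum_congr rfl fun x _ => by ring
    rw [h2, hrel g, zero_mul]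
  have h2 : ∀ y, p y = i → ∑ x ∈ Finset.univ.filter (fun x => p x = i), c x * A x y = 0 := by
    intro y hy
    rw [← h1 y, Finset.sum_filter]
    refine Finset.sum_congr rfl fun x _ => ?_
    split_ifs with h
    · rfl
    · rw [hA0 x y (by rw [hy]; exact fun h' => h h'.symm), mul_zero]
  have h3 : ∑ g : G, (∑ x ∈ Finset.univ.filter (fun x => p x = i), c x * u (g • x)) ^ 2 = 0 := by
    have h4 : ∀ g : G, (∑ x ∈ Finset.univ.filter (fun x => p x = i), c x * u (g • x)) ^ 2 =
        ∑ y ∈ Finset.univ.filter (fun x => p x = i),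
          ∑ x ∈ Finset.univ.filter (fun x => p x = i),
            c y * (c x * (u (g • x) * u (g • y))) := by
      intro g
      rw [sq, Finset.sum_mul_sum]
      exact Finset.sum_congr rfl fun x _ => Finset.sum_congr rfl fun y _ => by ring
    rw [Finset.sum_congr rfl (fun g _ => h4 g), Finset.sum_comm]
    refine Finset.sum_eq_zero fun y hy => ?_
    rw [Finset.sum_comm]
    have h5 := h2 y (Finset.mem_filter.1 hy).2
    have h6 : ∑ x ∈ Finset.univ.filter (fun x => p x = i),
        ∑ g : G, c y * (c x * (u (g • x) * u (g • y))) =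
        c y * ∑ x ∈ Finset.univ.filter (fun x => p x = i), c x * A x y := by
      simp only [A, Finset.mul_sum]
    rw [h6, h5, mul_zero]
  have h4 := (Finset.sum_eq_zero_iff_of_nonneg (fun g _ => sq_nonneg _)).1 h3 g (Finset.mem_univ g)
  exact pow_eq_zero_iff (two_ne_zero) |>.1 h4

/-- A sign vector on the embeddings of a CM field which is invariant up to signs comes from an
imaginary quadratic subfield. -/
theorem exists_delta {F : Type*} [Field F] [NumberField F] [IsCMField F]
    {L : Type*} [Field L] [NumberField L] [IsGalois ℚ L] (j : L →+* ℂ)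
    (h : ∀ ψ : F →+* ℂ, ∃ φ : F →+* L, j.comp φ = ψ)
    (v : (F →+* L) → ℤ) (hv : ∀ x, v x = 1 ∨ v x = -1) (hvn : ∀ x, v (cbar x) = -v x)
    (hvs : ∀ (g : L ≃ₐ[ℚ] L) x y, v (g • x) * v (g • y) = v x * v y) :
    ∃ (δ : F) (d : ℕ), 0 < d ∧ δ ^ 2 = -(d : F) ∧ ∀ x y : F →+* L, x δ = y δ ↔ v x = v y := by
  classical
  obtain ⟨x₀⟩ : Nonempty (F →+* L) := by
    rw [← Fintype.card_pos_iff, card_emb j h]
    exact finrank_pos
  have hv2 : ∀ x, v x * v x = 1 := by
    intro x
    rcases hv x with h | h <;> rw [h] <;> norm_num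
  let χ : (L ≃ₐ[ℚ] L) → ℤ := fun g => v (g • x₀) * v x₀
  have hχ1 : χ 1 = 1 := by simp only [χ, one_smul, hv2]
  have hχmul : ∀ g g', χ (g * g') = χ g * χ g' := by
    intro g g'
    have h1 := hvs g (g' • x₀) x₀
    simp only [χ, mul_smul]
    have h2 := hv2 x₀
    have h3 := hv2 (g • x₀)
    calc v (g • g' • x₀) * v x₀ = v (g • g' • x₀) * v x₀ * (v (g • x₀) * v (g • x₀)) := by
          rw [h3, mul_one]
      _ = (v (g • g' • x₀) * v (g • x₀)) * (v (g • x₀) * v x₀) := by ring
      _ = (v (g' • x₀) * v x₀) * (v (g • x₀) * v x₀) := by rw [h1]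
      _ = _ := by ring
  have hχpm : ∀ g, χ g = 1 ∨ χ g = -1 := by
    intro g
    rcases hv (g • x₀) with h1 | h1 <;> rcases hv x₀ with h2 | h2 <;> simp [χ, h1, h2]
  have hχv : ∀ g x, v (g • x) = χ g * v x := by
    intro g x
    have h1 := hvs g x x₀
    have h2 := hv2 x₀
    have h3 := hv2 (g • x₀)
    calc v (g • x) = v (g • x) * (v (g • x₀) * v (g • x₀)) := by rw [h3, mul_one]
      _ = (v (g • x) * v (g • x₀)) * v (g • x₀) := by ring
      _ = (v x * v x₀) * v (g • x₀) := by rw [h1]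
      _ = _ := by simp only [χ]; ring
  let H : Subgroup (L ≃ₐ[ℚ] L) :=
    { carrier := {g | χ g = 1}
      one_mem' := hχ1
      mul_mem' := by
        intro g g' h1 h2
        simp only [Set.mem_setOf_eq] at h1 h2 ⊢
        rw [hχmul, h1, h2, mul_one]
      inv_mem' := by
        intro g h1
        simp only [Set.mem_setOf_eq] at h1 ⊢
        have h2 := hχmul g g⁻¹
        rw [mul_inv_cancel, hχ1, h1, one_mul] at h2
        exact h2.symm }
  have hH : ∀ g, g ∈ H ↔ χ g = 1 := fun g => Iff.rfl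
  obtain ⟨g₀, hg₀⟩ := MulAction.exists_smul_eq (L ≃ₐ[ℚ] L) x₀ (cbar x₀)
  have hχg₀ : χ g₀ = -1 := by
    simp only [χ, hg₀, hvn]
    rw [neg_mul, hv2]
  have hg₀H : g₀ ∉ H := by
    rw [hH, hχg₀]
    norm_num
  have hfix : g₀ ∉ IntermediateField.fixingSubgroup (IntermediateField.fixedField H) := by
    rw [IntermediateField.fixingSubgroup_fixedField]
    exact hg₀H
  rw [IntermediateField.mem_fixingSubgroup_iff] at hfix
  push Not at hfix
  obtain ⟨α, hα, hαg⟩ := hfix
  have hαH : ∀ g ∈ H, g α = α := by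
    intro g hg
    exact hα ⟨g, hg⟩
  let s : L := α - g₀ α
  have hs0 : s ≠ 0 := sub_ne_zero.2 fun h => hαg h.symm
  have hsH : ∀ g ∈ H, g s = s := by
    intro g hg
    have h1 : g₀⁻¹ * g * g₀ ∈ H := by
      rw [hH, hχmul, hχmul, (hH g).1 hg, mul_one, ← hχmul, inv_mul_cancel, hχ1]
    have h2 := hαH _ h1
    have h3 : g (g₀ α) = g₀ ((g₀⁻¹ * g * g₀) α) := by
      change (g * g₀) α = (g₀ * (g₀⁻¹ * g * g₀)) α
      congr 1
      group
    simp only [s, map_sub]
    rw [hαH g hg, h3, h2]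
  have hsg₀ : g₀ s = -s := by
    have h1 : g₀ * g₀ ∈ H := by
      rw [hH, hχmul, hχg₀]
      norm_num
    have h2 : g₀ (g₀ α) = α := hαH _ h1
    simp only [s, map_sub, h2]
    ring
  have hsχ : ∀ g, g s = (χ g : L) * s := by
    intro g
    rcases hχpm g with h1 | h1
    · rw [h1, hsH g ((hH g).2 h1)]
      push_cast
      ring
    · have h2 : g₀⁻¹ * g ∈ H := by
        rw [hH, hχmul, h1]
        have h3 := hχmul g₀⁻¹ g₀
        rw [inv_mul_cancel, hχ1, hχg₀] at h3
        linarith
      have h3 : g s = g₀ ((g₀⁻¹ * g) s) := by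
        change g s = (g₀ * (g₀⁻¹ * g)) s
        congr 1
        group
      rw [h3, hsH _ h2, hsg₀, h1]
      push_cast
      ring
  -- the square is rational
  obtain ⟨D, hD⟩ := (IsGalois.mem_range_algebraMap_iff_fixed (F := ℚ) (s ^ 2)).2 (by
    intro g
    have h1 : ((χ g : ℤ) : L) ^ 2 = 1 := by
      rcases hχpm g with h | h <;> rw [h] <;> norm_num
    rw [map_pow, hsχ, mul_pow, h1, one_mul])
  -- `s` is in the image of `x₀`
  obtain ⟨δ₀, hδ₀⟩ : ∃ δ₀ : F, x₀ δ₀ = s := by
    let f : F →ₐ[ℚ] L := RingHom.equivRatAlgHom F L x₀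
    have h1 : s ∈ IntermediateField.fixedField (IntermediateField.fixingSubgroup f.fieldRange) := by
      rintro ⟨g, hg⟩
      rw [IntermediateField.mem_fixingSubgroup_iff] at hg
      have h2 : g • x₀ = x₀ := by
        ext y
        exact hg (x₀ y) ⟨y, rfl⟩
      have h3 : χ g = 1 := by
        simp only [χ, h2, hv2]
      exact hsH g h3
    rw [IsGalois.fixedField_fixingSubgroup] at h1
    obtain ⟨δ₀, h2⟩ := h1
    exact ⟨δ₀, h2⟩
  have hδ2 : δ₀ ^ 2 = (D : F) := by
    apply x₀.injective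
    rw [map_pow, hδ₀, ← hD, map_ratCast]
    rfl
  have hconj : IsCMField.complexConj F δ₀ = -δ₀ := by
    apply x₀.injective
    have h1 : cbar x₀ δ₀ = g₀ s := by
      rw [← hg₀, ← hδ₀]
      rfl
    have h2 : x₀ (IsCMField.complexConj F δ₀) = cbar x₀ δ₀ := rfl
    rw [h2, h1, hsg₀, map_neg, hδ₀]
  have hδ0 : δ₀ ≠ 0 := by
    intro h1
    rw [h1, map_zero] at hδ₀
    exact hs0 hδ₀.symm
  have hDneg : D < 0 := by
    let ψ : F →+* ℂ := j.comp x₀
    have h1 : ψ δ₀ ^ 2 = (D : ℂ) := by
      rw [← map_pow, hδ2, map_ratCast]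
    have h2 : starRingEnd ℂ (ψ δ₀) = -ψ δ₀ := by
      have h3 := IsCMField.complexEmbedding_complexConj (K := F) ψ δ₀
      rw [hconj, map_neg] at h3
      exact h3.symm
    have h3 : ψ δ₀ * starRingEnd ℂ (ψ δ₀) = -(D : ℂ) := by
      rw [h2, ← h1]
      ring
    rw [Complex.mul_conj] at h3
    have h4 : Complex.normSq (ψ δ₀) = -(D : ℝ) := by
      have h5 : ((Complex.normSq (ψ δ₀) : ℝ) : ℂ) = ((-(D : ℝ) : ℝ) : ℂ) := by
        rw [h3]
        push_cast
        rfl
      exact_mod_cast h5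
    have h5 : 0 < Complex.normSq (ψ δ₀) := by
      rw [Complex.normSq_pos]
      intro h6
      exact hδ0 (ψ.injective (by rw [h6, map_zero]))
    rw [h4] at h5
    have h6 : (D : ℝ) < 0 := by linarith
    exact_mod_cast h6
  -- scaling
  let n : ℕ := D.den
  let m : ℕ := D.num.natAbs
  have hn : 0 < n := D.den_pos
  have hm : 0 < m := Int.natAbs_pos.2 (Rat.num_ne_zero.2 hDneg.ne)
  have hDeq : D * n = -(m : ℚ) := by
    have h1 := Rat.mul_den_eq_num D
    have h2 : D.num < 0 := Rat.num_neg.2 hDneg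
    have h3 : ((m : ℤ)) = -D.num := by
      simp only [m]
      omega
    change D * (D.den : ℚ) = _
    rw [h1]
    have h4 : (m : ℚ) = ((m : ℤ) : ℚ) := by push_cast; rfl
    rw [h4, h3]
    push_cast
    ring
  refine ⟨(n : F) * δ₀, m * n, Nat.mul_pos hm hn, ?_, ?_⟩
  · have h1 : (D : F) * n = -(m : F) := by
      have h2 := congrArg (fun z : ℚ => (z : F)) hDeq
      push_cast at h2
      exact h2
    rw [mul_pow, hδ2]
    push_cast
    linear_combination (n : F) * h1
  · have key : ∀ x : F →+* L, x ((n : F) * δ₀) = ((v x * v x₀ : ℤ) : L) * ((n : L) * s) := by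
      intro x
      obtain ⟨g, rfl⟩ := MulAction.exists_smul_eq (L ≃ₐ[ℚ] L) x₀ x
      have h1 : (g • x₀) ((n : F) * δ₀) = g (x₀ ((n : F) * δ₀)) := rfl
      rw [h1, map_mul, map_mul, map_natCast, map_natCast, hδ₀, hsχ]
      change _ = ((χ g : ℤ) : L) * _
      ring
    have hns : (n : L) * s ≠ 0 := mul_ne_zero (Nat.cast_ne_zero.2 hn.ne') hs0
    intro x y
    rw [key, key]
    constructor
    · intro h1
      have h2 := mul_right_cancel₀ hns h1
      have h3 : v x * v x₀ = v y * v x₀ := by exact_mod_cast h2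
      rcases hv x₀ with h4 | h4 <;> rw [h4] at h3 <;> linarith
    · intro h1
      rw [h1]

end

end Pool.Agent.H204R3.GP
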