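import Mathlib
import Pool.Agent.H204R3.GP.HomDefs
import Pool.Agent.H204R3.GP.Neat

/-!
# Homomorphisms between tensor powers, from multilinear forms
-/

set_option linter.unusedSectionVars false

namespace Pool.Agent.H204R3.GP

open Module TensorProduct

noncomputable section

variable {k : Type*} [Field k] {V : Type*} [AddCommGroup V] [Module k V]

/-- The pairing as a linear map with values in the multilinear forms. -/
def pairM (ω : V →ₗ[k] V →ₗ[k] k) (t : ℕ) :
    (⨂[k] _ : Fin t, V) →ₗ[k] MultilinearMap k (fun _ : Fin t => V) k :=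
  PiTensorProduct.lift
    ((LinearMap.applyₗ (MultilinearMap.mkPiAlgebra k (Fin t) k)).compMultilinearMap
      ((MultilinearMap.compLinearMapMultilinear (R := k) (M₁ := fun _ : Fin t => V)
        (M₁' := fun _ : Fin t => k) (M₂ := k)).compLinearMap (fun _ => ω)))

theorem pairM_tprod (ω : V →ₗ[k] V →ₗ[k] k) {t : ℕ} (z y : Fin t → V) :
    pairM ω t (PiTensorProduct.tprod k z) y = ∏ i, ω (z i) (y i) := by
  unfold pairM
  rw [PiTensorProduct.lift.tprod]
  rfl

theorem pairing_tprod (ω : V →ₗ[k] V →ₗ[k] k) {t : ℕ} (z y : Fin t → V) :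
    pairing ω y (PiTensorProduct.tprod k z) = ∏ i, ω (z i) (y i) := by
  unfold pairing
  rw [PiTensorProduct.lift.tprod]
  rfl

theorem pairM_eq (ω : V →ₗ[k] V →ₗ[k] k) {t : ℕ} (w : ⨂[k] _ : Fin t, V) (y : Fin t → V) :
    pairM ω t w y = pairing ω y w := by
  induction w using PiTensorProduct.induction_on with
  | smul_tprod r z =>
    rw [map_smul, map_smul, _root_.smul_apply, pairM_tprod, pairing_tprod]
  | add a b ha hb => rw [map_add, map_add, _root_.add_apply, ha, hb]

variable [FiniteDimensional k V]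

theorem exists_dual (ω : V →ₗ[k] V →ₗ[k] k) (halt : ∀ v, ω v v = 0)
    (hnd : ∀ u, (∀ v, ω v u = 0) → u = 0) :
    ∃ (n : ℕ) (b b' : Basis (Fin n) k V), ∀ i j, ω (b i) (b' j) = if j = i then 1 else 0 := by
  have hanti : ∀ u v, ω u v = -ω v u := by
    intro u v
    have h1 := halt (u + v)
    simp only [map_add, LinearMap.add_apply, halt, zero_add, add_zero] at h1
    exact eq_neg_of_add_eq_zero_left (by rw [← h1]; ring)
  have hB : (ω : LinearMap.BilinForm k V).Nondegenerate := by
    constructor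
    · intro x hx
      apply hnd
      intro v
      rw [hanti, hx, neg_zero]
    · intro x hx
      exact hnd x hx
  exact ⟨_, LinearMap.BilinForm.dualBasis ω hB (Module.finBasis k V), Module.finBasis k V,
    fun i j => LinearMap.BilinForm.apply_dualBasis_left hB _ i j⟩

theorem exists_rep (ω : V →ₗ[k] V →ₗ[k] k) (halt : ∀ v, ω v v = 0)
    (hnd : ∀ u, (∀ v, ω v u = 0) → u = 0) {s t : ℕ}
    (Φ : MultilinearMap k (fun _ : Fin s ⊕ Fin t => V) k) :
    ∃ f : (⨂[k] _ : Fin s, V) →ₗ[k] (⨂[k] _ : Fin t, V), ∀ (x : Fin s → V) (y : Fin t → V),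
      pairing ω y (f (PiTensorProduct.tprod k x)) = Φ (Sum.elim x y) := by
  classical
  obtain ⟨n, b, b', hbb⟩ := exists_dual ω halt hnd
  let ev : (Fin t → Fin n) → MultilinearMap k (fun _ : Fin t => V) k →ₗ[k] (⨂[k] _ : Fin t, V) :=
    fun J =>
      { toFun := fun F => F (fun i => b' (J i)) • PiTensorProduct.tprod k (fun i => b (J i))
        map_add' := fun F G => by rw [_root_.add_apply, add_smul]
        map_smul' := fun c F => by
          rw [_root_.smul_apply, smul_eq_mul, mul_smul, RingHom.id_apply] }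
  let M : MultilinearMap k (fun _ : Fin s => V) (⨂[k] _ : Fin t, V) :=
    (∑ J : Fin t → Fin n, ev J).compMultilinearMap (MultilinearMap.currySum Φ)
  refine ⟨PiTensorProduct.lift M, fun x y => ?_⟩
  rw [PiTensorProduct.lift.tprod, ← pairM_eq]
  have h1 : pairM ω t (M x) = MultilinearMap.currySum Φ x := by
    refine Basis.ext_multilinear (fun _ => b') fun J => ?_
    have h2 : M x = ∑ J : Fin t → Fin n, (Φ (Sum.elim x (fun i => b' (J i)))) •
        PiTensorProduct.tprod k (fun i => b (J i)) := by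
      simp only [M, LinearMap.compMultilinearMap_apply, LinearMap.sum_apply]
      rfl
    rw [h2, map_sum, MultilinearMap.sum_apply, Finset.sum_eq_single J]
    · rw [map_smul, _root_.smul_apply, pairM_tprod, Finset.prod_eq_one, smul_eq_mul,
        mul_one]
      · rfl
      · intro i _
        rw [hbb, if_pos rfl]
    · intro J' _ hJ'
      rw [map_smul, _root_.smul_apply, pairM_tprod]
      obtain ⟨i, hi⟩ := Function.ne_iff.1 hJ'
      rw [Finset.prod_eq_zero (Finset.mem_univ i), smul_zero]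
      rw [hbb, if_neg (fun h => hi h.symm)]
    · intro h
      exact absurd (Finset.mem_univ _) h
  rw [h1]
  rfl

theorem pairing_inj (ω : V →ₗ[k] V →ₗ[k] k) (halt : ∀ v, ω v v = 0)
    (hnd : ∀ u, (∀ v, ω v u = 0) → u = 0) {t : ℕ} (w : ⨂[k] _ : Fin t, V)
    (hw : ∀ y : Fin t → V, pairing ω y w = 0) : w = 0 := by
  classical
  obtain ⟨n, b, b', hbb⟩ := exists_dual ω halt hnd
  let B := Basis.piTensorProduct (fun _ : Fin t => b)
  rw [← LinearEquiv.map_eq_zero_iff B.repr]
  ext J
  rw [Finsupp.zero_apply, ← hw (fun i => b' (J i))]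
  have h1 : (B.coord J) = pairing ω (fun i => b' (J i)) := by
    refine B.ext fun J' => ?_
    rw [Basis.coord_apply, Basis.repr_self, Basis.piTensorProduct_apply, pairing_tprod,
      Finsupp.single_apply]
    by_cases h : J' = J
    · rw [if_pos h, h, Finset.prod_eq_one]
      intro i _
      rw [hbb, if_pos rfl]
    · rw [if_neg h]
      obtain ⟨i, hi⟩ := Function.ne_iff.1 h
      rw [Finset.prod_eq_zero (Finset.mem_univ i)]
      rw [hbb, if_neg (fun h => hi h.symm)]
  rw [← h1]
  rfl

/-- The multilinear form of a homomorphism. -/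
def formOf (ω : V →ₗ[k] V →ₗ[k] k) {s t : ℕ}
    (f : (⨂[k] _ : Fin s, V) →ₗ[k] (⨂[k] _ : Fin t, V)) :
    MultilinearMap k (fun _ : Fin s ⊕ Fin t => V) k :=
  MultilinearMap.uncurrySum
    ((pairM ω t ∘ₗ f).compMultilinearMap (PiTensorProduct.tprod k (s := fun _ : Fin s => V)))

theorem formOf_apply (ω : V →ₗ[k] V →ₗ[k] k) {s t : ℕ}
    (f : (⨂[k] _ : Fin s, V) →ₗ[k] (⨂[k] _ : Fin t, V)) (z : Fin s ⊕ Fin t → V) :
    formOf ω f z = pairing ω (fun i => z (Sum.inr i))
      (f (PiTensorProduct.tprod k (fun i => z (Sum.inl i)))) := by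
  rw [← pairM_eq]
  rfl

theorem pairing_map {Γ : Type*} [Group Γ] (ρ : Representation k Γ V) (χ : Γ →* k)
    (ω : V →ₗ[k] V →ₗ[k] k) (hωρ : ∀ s u v, ω (ρ s u) (ρ s v) = χ s * ω u v) {t : ℕ}
    (g : Γ) (w : ⨂[k] _ : Fin t, V) (y : Fin t → V) :
    pairing ω (fun i => ρ g (y i)) (PiTensorProduct.map (fun _ => ρ g) w) =
      χ g ^ t * pairing ω y w := by
  induction w using PiTensorProduct.induction_on with
  | smul_tprod r z =>
    rw [map_smul, map_smul, map_smul, PiTensorProduct.map_tprod, pairing_tprod, pairing_tprod]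
    simp only [hωρ, Finset.prod_mul_distrib, Finset.prod_const, Finset.card_univ, Fintype.card_fin,
      smul_eq_mul]
    ring
  | add a b ha hb => rw [map_add, map_add, map_add, ha, hb, mul_add]

/-- If all Tate multilinear forms are generated in degree two, so are all homomorphisms. -/
theorem homs_generated [CharZero k] {Γ : Type*} [Group Γ] (ρ : Representation k Γ V) (χ : Γ →* k)
    (ω : V →ₗ[k] V →ₗ[k] k) (halt : ∀ v, ω v v = 0) (hnd : ∀ u, (∀ v, ω v u = 0) → u = 0)
    (hωρ : ∀ s u v, ω (ρ s u) (ρ s v) = χ s * ω u v)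
    (H : ∀ (m : ℕ) (φ : MultilinearMap k (fun _ : Fin m × Fin 2 => V) k),
      Pool.Agent.H204R3.SP.IsTate ρ χ m φ → φ ∈ Submodule.span k (PT ρ χ m)) :
    HomsGeneratedInDegreeTwo ρ χ ω := by
  classical
  intro s t c d hst f hf
  obtain ⟨m, hm⟩ : ∃ m, s + t = 2 * m := ⟨(s + t) / 2, by omega⟩
  have hmc : t + d = m + c := by omega
  obtain ⟨e⟩ : Nonempty (Fin m × Fin 2 ≃ Fin s ⊕ Fin t) := by
    rw [← Fintype.card_eq, Fintype.card_prod, Fintype.card_sum, Fintype.card_fin, Fintype.card_fin,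
      Fintype.card_fin, Fintype.card_fin]
    omega
  obtain ⟨Δ, hΔ, hf⟩ := hf
  have h1 := H m ((formOf ω f).domDomCongr e.symm) ⟨Δ, hΔ, fun g hg v => by
    rw [MultilinearMap.domDomCongr_apply, MultilinearMap.domDomCongr_apply, formOf_apply,
      formOf_apply]
    have h2 := hf g hg (PiTensorProduct.tprod k (fun i => v (e.symm (Sum.inl i))))
    rw [map_smul, PiTensorProduct.map_tprod] at h2
    have h3 := congrArg (pairing ω (fun i => ρ g (v (e.symm (Sum.inr i))))) h2
    rw [map_smul, map_smul, pairing_map ρ χ ω hωρ, smul_eq_mul, smul_eq_mul, ← mul_assoc,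
      ← pow_add, add_comm d t, hmc, add_comm m c, pow_add, mul_assoc] at h3
    have h4 : χ g ≠ 0 := by
      intro h5
      have h6 : χ (g * g⁻¹) = 0 := by rw [map_mul, h5, zero_mul]
      rw [mul_inv_cancel, map_one] at h6
      exact one_ne_zero h6
    exact mul_left_cancel₀ (pow_ne_zero c h4) h3⟩
  -- every element of the span comes from the span of the elementary maps
  have h2 : ∀ φ ∈ Submodule.span k (PT ρ χ m),
      ∃ f' ∈ Submodule.span k {f' : (⨂[k] _ : Fin s, V) →ₗ[k] (⨂[k] _ : Fin t, V) |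
        IsElementary ρ χ ω f'}, ∀ (x : Fin s → V) (y : Fin t → V),
        pairing ω y (f' (PiTensorProduct.tprod k x)) = φ (fun l => Sum.elim x y (e l)) := by
    intro φ hφ
    induction hφ using Submodule.span_induction with
    | mem φ hφ =>
      obtain ⟨σ, B, hB, rfl⟩ := hφ
      obtain ⟨f', hf'⟩ := exists_rep ω halt hnd ((mmG σ B).domDomCongr e)
      refine ⟨f', Submodule.subset_span ⟨m, σ.trans e, B, hB, fun x y => ?_⟩, fun x y => ?_⟩
      · rw [hf']
        rfl
      · rw [hf']
        rfl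
    | zero => exact ⟨0, Submodule.zero_mem _, fun x y => by simp⟩
    | add φ ψ _ _ hφ hψ =>
      obtain ⟨f1, h3, h4⟩ := hφ
      obtain ⟨f2, h5, h6⟩ := hψ
      refine ⟨f1 + f2, Submodule.add_mem _ h3 h5, fun x y => ?_⟩
      rw [LinearMap.add_apply, map_add, h4, h6, _root_.add_apply]
    | smul a φ _ hφ =>
      obtain ⟨f1, h3, h4⟩ := hφ
      refine ⟨a • f1, Submodule.smul_mem _ _ h3, fun x y => ?_⟩
      rw [LinearMap.smul_apply, map_smul, h4, _root_.smul_apply]
  obtain ⟨f', hf'1, hf'2⟩ := h2 _ h1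
  have h3 : f = f' := by
    refine PiTensorProduct.ext (MultilinearMap.ext fun x => ?_)
    rw [LinearMap.compMultilinearMap_apply, LinearMap.compMultilinearMap_apply, ← sub_eq_zero]
    refine pairing_inj ω halt hnd _ fun y => ?_
    rw [map_sub, hf'2, sub_eq_zero, MultilinearMap.domDomCongr_apply, formOf_apply]
    simp only [Equiv.apply_symm_apply, Sum.elim_inl, Sum.elim_inr]
  rw [h3]
  exact hf'1

end

end Pool.Agent.H204R3.GP
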