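import Mathlib

/-!
# Hodge classes and Tate classes in the tensor powers of the first cohomology group

`W = H_1(A, ℚ)` is the rational homology of a complex abelian variety `A`, `T` its tangent space at
the origin and `per : W → T` the inclusion; `V` is the rational Tate module `V_ℓ(A)` with the
comparison map `comp : W → V` (so that `V = W ⊗ ℚ_ℓ`), `ρ` the action of the Galois group `Γ` of a
field of definition and `χ` the cyclotomic character.
-/

namespace Pool.Agent.H204R3.GP

section Hodge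

variable {W T : Type*} [AddCommGroup W] [Module ℚ W] [AddCommGroup T] [Module ℂ T]

/-- A rational multilinear form `ψ` on `W = H_1(A, ℚ)` in `2 m` variables (indexed by `κ`) is a
*Hodge class* (of type `(0, 0)` in `(H^1(A, ℚ) ^ {⊗ 2 m}) (m)`) if it extends to a real multilinear
form on the tangent space `T` which is invariant under the multiplication by the complex numbers of
absolute value `1`. -/
def IsHodgeTensor (per : W →+ T) {κ : Type*} (ψ : MultilinearMap ℚ (fun _ : κ => W) ℚ) : Prop :=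
  ∃ Ψ : MultilinearMap ℝ (fun _ : κ => T) ℝ, (∀ v : κ → W, Ψ (fun l => per (v l)) = ψ v) ∧
    ∀ z : ℂ, ‖z‖ = 1 → ∀ u : κ → T, Ψ (fun l => z • u l) = Ψ u

/-- The same for bilinear forms. -/
def IsHodgeBilinear (per : W →+ T) (B : W →ₗ[ℚ] W →ₗ[ℚ] ℚ) : Prop :=
  ∃ E : T →ₗ[ℝ] T →ₗ[ℝ] ℝ, (∀ x y, E (per x) (per y) = B x y) ∧
    ∀ z : ℂ, ‖z‖ = 1 → ∀ u v, E (z • u) (z • v) = E u v

/-- The linear endomorphism `P` of `W` is an element of `End(A) ⊗ ℚ`: it extends to a complex linear
endomorphism of the tangent space. -/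
def IsHodgeEnd (per : W →+ T) (P : W →ₗ[ℚ] W) : Prop :=
  ∃ P' : T →ₗ[ℂ] T, ∀ w, P' (per w) = per (P w)

/-- The multilinear form `ψ` is a product of Hodge classes of degree two, the `2 m` variables being
distributed in some way. -/
def IsProductOfHodgeBilinear (per : W →+ T) {m : ℕ}
    (ψ : MultilinearMap ℚ (fun _ : Fin m × Fin 2 => W) ℚ) : Prop :=
  ∃ (σ : Equiv.Perm (Fin m × Fin 2)) (B : Fin m → (W →ₗ[ℚ] W →ₗ[ℚ] ℚ)),
    (∀ l, IsHodgeBilinear per (B l)) ∧ ∀ v, ψ v = ∏ l, B l (v (σ (l, 0))) (v (σ (l, 1)))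

end Hodge

section Tate

variable {k V Γ : Type*} [Field k] [AddCommGroup V] [Module k V] [Group Γ]

/-- The multilinear form `φ` on `V` in `2 m` variables is a *Tate class* in
`(H^1(A, ℚ_ℓ) ^ {⊗ 2 m}) (m)`: it is fixed by a subgroup `Δ` of finite index of the Galois group. -/
def IsTateTensor (ρ : Representation k Γ V) (χ : Γ →* k) (m : ℕ)
    (φ : MultilinearMap k (fun _ : Fin m × Fin 2 => V) k) : Prop :=
  ∃ Δ : Subgroup Γ, Δ.FiniteIndex ∧ ∀ s ∈ Δ, ∀ v : Fin m × Fin 2 → V,
    φ (fun l => ρ s (v l)) = χ s ^ m * φ v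

end Tate

variable {k V Γ : Type*} [Field k] [CharZero k] [AddCommGroup V] [Module k V] [Group Γ]
  {W T : Type*} [AddCommGroup W] [Module ℚ W] [AddCommGroup T] [Module ℂ T]

/-- The rational form `ψ` is mapped to the form `φ` by the comparison isomorphism. -/
def Compares (comp : W →+ V) {κ : Type*} (φ : MultilinearMap k (fun _ : κ => V) k)
    (ψ : MultilinearMap ℚ (fun _ : κ => W) ℚ) : Prop :=
  ∀ v : κ → W, φ (fun l => comp (v l)) = ((ψ v : ℚ) : k)

/-- The theorem of Faltings: every endomorphism of `V = V_ℓ(A)` which commutes with the action of a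
subgroup of finite index of the Galois group is a linear combination of endomorphisms of `A`. -/
def FaltingsEnd (per : W →+ T) (comp : W →+ V) (ρ : Representation k Γ V) : Prop :=
  ∀ P : Module.End k V, (∃ Δ : Subgroup Γ, Δ.FiniteIndex ∧ ∀ s ∈ Δ, ∀ v, P (ρ s v) = ρ s (P v)) →
    P ∈ Submodule.span k {P' : Module.End k V | ∃ P₀ : W →ₗ[ℚ] W, IsHodgeEnd per P₀ ∧
      ∀ w, P' (comp w) = comp (P₀ w)}

/-- The Mumford-Tate conjecture for `A`, in a strong form: every Tate class in the tensor powers of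
`H^1` is a linear combination of Hodge classes, and even of Hodge classes which are products of
Hodge classes of degree two. -/
def MumfordTateStrong (per : W →+ T) (comp : W →+ V) (ρ : Representation k Γ V) (χ : Γ →* k) :
    Prop :=
  ∀ (m : ℕ) (φ : MultilinearMap k (fun _ : Fin m × Fin 2 => V) k), IsTateTensor ρ χ m φ →
    φ ∈ Submodule.span k {φ' : MultilinearMap k (fun _ : Fin m × Fin 2 => V) k |
      ∃ ψ : MultilinearMap ℚ (fun _ : Fin m × Fin 2 => W) ℚ, IsHodgeTensor per ψ ∧
        IsProductOfHodgeBilinear per ψ ∧ Compares comp φ' ψ}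

end Pool.Agent.H204R3.GP
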