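import Mathlib
import Pool.Agent.H204R3.GP.Neat
import Pool.Agent.H204R3.GP.CoreSig

/-!
# Tate classes and one Frobenius element: the signature criterion (odd prime powers)
-/

set_option linter.unusedSectionVars false
set_option linter.unusedVariables false

namespace Pool.Agent.H204R3.GP

open NumberField Module Pool.Agent.H204R3.CM Pool.Agent.H204R3.SP Pool.Agent.H925R2

noncomputable section

section

variable {ι : Type*} [Fintype ι] [DecidableEq ι] {G : Type*} [Group G] [Finite G]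
  (Y : ι → Type*) [∀ i, Fintype (Y i)] [∀ i, DecidableEq (Y i)] [∀ i, MulAction G (Y i)]

/-- The same as `core_sig` for real coefficients. -/
theorem core_sig_real [∀ i, MulAction.IsPretransitive G (Y i)] (inv : ∀ i, Y i → Y i)
    (hinv : ∀ i x, inv i (inv i x) = x) (hne : ∀ i x, inv i x ≠ x)
    (hG : ∀ (g : G) (i : ι) (x : Y i), g • inv i x = inv i (g • x))
    (r : ℕ) [Fact r.Prime] (hr : r ≠ 2)
    (k : ι → ℕ) (hcard : ∀ i, Fintype.card (Y i) = 2 * r ^ k i)
    (e0 : ∀ i, Y i → ℤ) (he0 : ∀ i x, e0 i (inv i x) = -e0 i x)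
    (O : ∀ i, Finset (Y i)) (hO : ∀ i, IsHalf (inv i) (O i))
    (χ : ι → G →* ℤˣ) (hχ : Function.Injective χ)
    (hOχ : ∀ (g : G) (i : ι) (x : Y i), x ∈ O i → (g • x ∈ O i ↔ χ i g = 1))
    (hsum : ∀ i, ¬ (r : ℤ) ∣ ∑ x ∈ O i, e0 i x)
    (c : ∀ i, Y i → ℝ) (hc : ∀ i x, c i (inv i x) = -c i x)
    (hrel : ∀ g : G, ∑ i, ∑ x, c i x * (e0 i (g • x) : ℝ) = 0) :
    ∀ i x, c i x = 0 := by
  classical
  intro i₀ x₀
  rw [← Module.forall_dual_apply_eq_zero_iff ℚ (c i₀ x₀)]
  intro f
  let D : ℕ := ∏ i, ∏ x, (f (c i x)).den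
  have hDpos : (D : ℚ) ≠ 0 := by
    rw [Nat.cast_ne_zero]
    exact Finset.prod_ne_zero_iff.2 fun i _ => Finset.prod_ne_zero_iff.2 fun x _ =>
      (f (c i x)).den_ne_zero
  have hD : ∀ i x, ∃ n : ℤ, (n : ℚ) = D * f (c i x) := by
    intro i x
    have h1 : (f (c i x)).den ∣ D :=
      (Finset.dvd_prod_of_mem (fun x => (f (c i x)).den) (Finset.mem_univ x)).trans
        (Finset.dvd_prod_of_mem (fun i => ∏ x, (f (c i x)).den) (Finset.mem_univ i))
    obtain ⟨m, hm⟩ := h1
    refine ⟨m * (f (c i x)).num, ?_⟩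
    have h2 := Rat.mul_den_eq_num (f (c i x))
    rw [hm]
    push_cast
    rw [← h2]
    ring
  choose n hn using hD
  have h := core_sig Y inv hinv hne hG r hr k hcard e0 he0 O hO χ hχ hOχ hsum n
    (fun i x => by
      have h1 : ((n i (inv i x) : ℤ) : ℚ) = ((-n i x : ℤ) : ℚ) := by
        rw [hn, hc, map_neg, mul_neg, ← hn]
        push_cast
        rfl
      exact_mod_cast h1)
    (fun g => by
      have h1 : ((∑ i, ∑ x, n i x * e0 i (g • x) : ℤ) : ℚ) = 0 := by
        push_cast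
        have h2 : ∀ i x, ((n i x : ℤ) : ℚ) * ((e0 i (g • x) : ℤ) : ℚ) =
            D * f (c i x * (e0 i (g • x) : ℝ)) := by
          intro i x
          have h3 : c i x * (e0 i (g • x) : ℝ) = ((e0 i (g • x) : ℤ) : ℚ) • c i x := by
            rw [Rat.smul_def]
            push_cast
            ring
          rw [h3, map_smul, hn, smul_eq_mul]
          ring
        simp only [h2]
        rw [← Finset.sum_congr rfl fun i _ => Finset.mul_sum _ _ _, ← Finset.mul_sum]
        simp only [← map_sum]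
        rw [hrel g, map_zero, mul_zero]
      exact_mod_cast h1)
  have h3 : (D : ℚ) * f (c i₀ x₀) = 0 := by rw [← hn, h]; simp
  exact (mul_eq_zero.1 h3).resolve_left hDpos

end

open Classical in
/-- The signature of the Weil number `π` is prime to `r`: write `‖τ π‖ ^ 2 = ‖q‖ * t ^ u(τ)` with
integers `u(τ)`, where `t` is a positive real number, for all `p`-adic embeddings `τ` (so that
`u(τ)` is a multiple of the slope minus `1 / 2`); the sum of the `u(τ)` over all `τ` which take a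
fixed value at `δ` is not divisible by `r`. -/
def SignaturePrimeTo (r p a : ℕ) [Fact p.Prime] {F : Type*} [Field F] [NumberField F]
    (π δ : F) : Prop :=
  ∃ t : ℝ, 0 < t ∧ t ≠ 1 ∧ ∃ u : (F →+* PadicAlgCl p) → ℤ,
    (∀ τ, ‖τ π‖ ^ 2 = ‖(p : PadicAlgCl p) ^ a‖ * t ^ u τ) ∧
    ∀ τ₀ : F →+* PadicAlgCl p, ¬ (r : ℤ) ∣ ∑ τ with τ δ = τ₀ δ, u τ

/-- The signature criterion. -/
theorem neat_of_signature {p : ℕ} [Fact p.Prime] {a : ℕ} {ι : Type*} [Fintype ι] {F : ι → Type*}
    [∀ i, Field (F i)] [∀ i, NumberField (F i)] [∀ i, IsCMField (F i)] {π : ∀ i, F i}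
    {L : Type*} [Field L] [NumberField L] [IsGalois ℚ L] (j : L →+* ℂ)
    (h : ∀ i, ∀ ψ : F i →+* ℂ, ∃ φ : F i →+* L, j.comp φ = ψ) (jp : L →+* PadicAlgCl p)
    (hw : ∀ i, π i * IsCMField.complexConj (F i) (π i) = (p : F i) ^ a)
    (r : ℕ) [Fact r.Prime] (hr : r ≠ 2)
    (k : ι → ℕ) (hdeg : ∀ i, finrank ℚ (F i) = 2 * r ^ k i)
    (δ : ∀ i, F i) (d : ι → ℕ) (hd : ∀ i, 0 < d i) (hδ : ∀ i, δ i ^ 2 = -(d i : F i))
    (hdist : ∀ i i', i ≠ i' → ¬ IsSquare (d i * d i'))
    (hsig : ∀ i, SignaturePrimeTo r p a (π i) (δ i)) :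
    Neat p a π L := by
  classical
  intro m M hM I hprod y
  have h0 := norm_q_pos p a
  set Q : ℝ := ‖(p : PadicAlgCl p) ^ a‖ with hQ
  -- square roots of `- d`
  have hsq : ∀ i (φ : F i →+* L), (φ (δ i)) ^ 2 = -(d i : L) := by
    intro i φ
    rw [← map_pow, hδ, map_neg, map_natCast]
  have him : ∀ i (z : ℂ), z ^ 2 = -(d i : ℂ) → z.im ≠ 0 := by
    intro i z hz h0
    have h1 := congrArg Complex.re hz
    rw [pow_two, Complex.mul_re, h0, Complex.neg_re, Complex.natCast_re] at h1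
    have h2 : (0 : ℝ) < d i := by exact_mod_cast hd i
    nlinarith [mul_self_nonneg z.re]
  have hsj : ∀ i (φ : F i →+* L), (j (φ (δ i))).im ≠ 0 := by
    intro i φ
    apply him i
    rw [← map_pow, hsq, map_neg, map_natCast]
  have hcb : ∀ i (φ : F i →+* L), (j (cbar φ (δ i))).im = -(j (φ (δ i))).im := by
    intro i φ
    have h1 := RingHom.congr_fun (comp_cbar j φ) (δ i)
    rw [ComplexEmbedding.conjugate_coe_eq] at h1
    have h2 : j (cbar φ (δ i)) = starRingEnd ℂ (j (φ (δ i))) := h1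
    rw [h2, Complex.conj_im]
  have hex : ∀ i, ∃ φ : F i →+* L, 0 < (j (φ (δ i))).im := by
    intro i
    obtain ⟨φ⟩ : Nonempty (F i →+* L) := by
      rw [← Fintype.card_pos_iff, card_emb j (h i)]
      exact finrank_pos
    rcases lt_or_gt_of_ne (hsj i φ) with h1 | h1
    · exact ⟨cbar φ, by rw [hcb]; linarith⟩
    · exact ⟨φ, h1⟩
  choose φ0 hφ0 using hex
  let s : ι → L := fun i => φ0 i (δ i)
  have hs2 : ∀ i, s i ^ 2 = -(d i : L) := fun i => hsq i (φ0 i)
  have hroot : ∀ i (x : L), x ^ 2 = -(d i : L) → x = s i ∨ x = -s i := by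
    intro i x hx
    rw [← hs2 i] at hx
    exact sq_eq_sq_iff_eq_or_eq_neg.1 hx
  have hs0 : ∀ i, s i ≠ -s i := by
    intro i h1
    have h2 : (j (s i)).im = -(j (s i)).im := by
      conv_lhs => rw [h1]
      rw [map_neg, Complex.neg_im]
    have h3 : 0 < (j (s i)).im := hφ0 i
    linarith
  have hσs : ∀ (σ : L ≃ₐ[ℚ] L) i, σ (s i) = s i ∨ σ (s i) = -s i := by
    intro σ i
    apply hroot
    rw [← map_pow, hs2, map_neg, map_natCast]
  let χ : ι → (L ≃ₐ[ℚ] L) →* ℤˣ := fun i =>
    { toFun := fun σ => if σ (s i) = s i then 1 else -1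
      map_one' := by
        rw [if_pos (by simp)]
      map_mul' := by
        intro σ τ
        have h1 : (σ * τ) (s i) = σ (τ (s i)) := rfl
        rcases hσs τ i with h2 | h2 <;> rcases hσs σ i with h3 | h3
        · rw [h1, h2, h3]; simp
        · have h4 : ¬ (-s i = s i) := fun h5 => hs0 i h5.symm
          rw [h1, h2, h3]; simp [h4]
        · have h4 : ¬ (-s i = s i) := fun h5 => hs0 i h5.symm
          rw [h1, h2, map_neg, h3]; simp [h4]
        · have h4 : ¬ (-s i = s i) := fun h5 => hs0 i h5.symm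
          rw [h1, h2, map_neg, h3, neg_neg]; simp [h4] }
  have hχapp : ∀ i σ, χ i σ = if σ (s i) = s i then 1 else -1 := fun i σ => rfl
  have hχ1 : ∀ i σ, χ i σ = 1 ↔ σ (s i) = s i := by
    intro i σ
    rw [hχapp]
    by_cases h1 : σ (s i) = s i
    · simp [h1]
    · simp only [h1, if_false, iff_false]
      decide
  have hχs : ∀ i (σ : L ≃ₐ[ℚ] L), σ (s i) = ((χ i σ : ℤ) : L) * s i := by
    intro i σ
    rw [hχapp]
    by_cases h1 : σ (s i) = s i
    · rw [if_pos h1, Units.val_one, Int.cast_one, one_mul, h1]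
    · rw [if_neg h1, (hσs σ i).resolve_left h1]
      push_cast
      ring
  let O : ∀ i, Finset (F i →+* L) := fun i => Finset.univ.filter (fun φ => 0 < (j (φ (δ i))).im)
  have hOmem : ∀ i φ, φ ∈ O i ↔ 0 < (j (φ (δ i))).im := fun i φ => by
    simp only [O, Finset.mem_filter, Finset.mem_univ, true_and]
  have hOs : ∀ i φ, φ ∈ O i ↔ φ (δ i) = s i := by
    intro i φ
    rw [hOmem]
    constructor
    · intro h1
      rcases hroot i _ (hsq i φ) with h2 | h2
      · exact h2
      · exfalso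
        rw [h2, map_neg, Complex.neg_im] at h1
        have h3 : 0 < (j (s i)).im := hφ0 i
        linarith
    · intro h1
      rw [h1]
      exact hφ0 i
  have hOhalf : ∀ i, IsHalf (R := F i →+* L) cbar (O i) := by
    intro i φ
    rw [hOmem, hOmem, hcb]
    constructor
    · intro h1
      linarith
    · intro h1
      rcases lt_or_gt_of_ne (hsj i φ) with h2 | h2
      · exfalso
        apply h1
        linarith
      · exact h2
  -- the slopes
  choose t ht0 ht1 u hu1 hu2 using hsig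
  let e0 : ∀ i, (F i →+* L) → ℤ := fun i φ => u i (jp.comp φ)
  have hnorm : ∀ x : Σ i, (F i →+* L),
      2 * Real.log ‖jp (val π x)‖ - Real.log Q = (e0 x.1 x.2 : ℝ) * Real.log (t x.1) := by
    intro x
    have h1 := congrArg Real.log (hu1 x.1 (jp.comp x.2))
    rw [Real.log_mul h0.ne' (zpow_pos (ht0 _) _).ne', Real.log_pow, Real.log_zpow] at h1
    change ((2 : ℕ) : ℝ) * Real.log ‖jp (val π x)‖ =
      Real.log Q + (e0 x.1 x.2 : ℝ) * Real.log (t x.1) at h1
    push_cast at h1
    linarith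
  have hlog : ∀ i, Real.log (t i) ≠ 0 := by
    intro i
    exact Real.log_ne_zero_of_pos_of_ne_one (ht0 i) (ht1 i)
  have hne : ∀ x : Σ i, (F i →+* L), ‖jp (val π x)‖ ≠ 0 := by
    intro x h1
    rw [norm_eq_zero] at h1
    have h2 := val_bar (L := L) hw x
    have h3 : val π x = 0 := jp.injective (by rw [h1, map_zero])
    rw [h3, zero_mul] at h2
    exact pow_ne_zero a (Nat.cast_ne_zero.2 (Fact.out : p.Prime).ne_zero) h2.symm
  have he0 : ∀ i φ, e0 i (cbar φ) = -e0 i φ := by
    intro i φ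
    let x : Σ i, (F i →+* L) := ⟨i, φ⟩
    have h1 := congrArg (fun z => Real.log ‖jp z‖) (val_bar (L := L) hw x)
    simp only [map_mul, norm_mul, map_pow, map_natCast] at h1
    rw [Real.log_mul (hne _) (hne _)] at h1
    have h2 := hnorm x
    have h3 := hnorm (bar x)
    have h4 : ((e0 i (cbar φ) : ℝ) + (e0 i φ : ℝ)) * Real.log (t i) = 0 := by
      have h5 : (e0 (bar x).1 (bar x).2 : ℝ) * Real.log (t (bar x).1) =
        (e0 i (cbar φ) : ℝ) * Real.log (t i) := rfl
      rw [h5] at h3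
      change _ = (e0 i φ : ℝ) * Real.log (t i) at h2
      rw [add_mul, ← h3, ← h2]
      rw [hQ]
      linarith
    have h5 := (mul_eq_zero.1 h4).resolve_right (hlog i)
    have h6 : (e0 i (cbar φ) : ℝ) = ((-e0 i φ : ℤ) : ℝ) := by
      push_cast
      linarith
    exact_mod_cast h6
  have hsum : ∀ i, ¬ (r : ℤ) ∣ ∑ φ ∈ O i, e0 i φ := by
    intro i
    have h1 := hu2 i (jp.comp (φ0 i))
    have h2 : ∑ φ ∈ O i, e0 i φ =
        ∑ τ with τ (δ i) = (jp.comp (φ0 i)) (δ i), u i τ := by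
      refine Finset.sum_bij (fun φ _ => jp.comp φ) (fun φ hφ => ?_) (fun φ _ ψ _ hh => ?_)
        (fun τ hτ => ?_) (fun φ _ => rfl)
      · rw [Finset.mem_filter]
        refine ⟨Finset.mem_univ _, ?_⟩
        rw [RingHom.comp_apply, (hOs i φ).1 hφ]
        rfl
      · ext x
        exact jp.injective (RingHom.congr_fun hh x)
      · obtain ⟨φ, hφ⟩ := exists_factor j (h i) jp τ
        refine ⟨φ, (hOs i φ).2 ?_, hφ⟩
        rw [Finset.mem_filter] at hτ
        have h3 := hτ.2
        rw [← hφ] at h3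
        exact jp.injective h3
    rw [h2]
    exact h1
  -- the relation
  let X := Σ i, (F i →+* L)
  let v : X → ℝ := fun x => 2 * Real.log ‖jp (val π x)‖ - Real.log Q
  let c0 : X → ℝ := fun y => ((Finset.univ.filter (fun l => I l = y)).card : ℝ) -
    ((Finset.univ.filter (fun l => I l = bar y)).card : ℝ)
  have hc0 : ∀ y, c0 (bar y) = -c0 y := by
    intro y
    simp only [c0, bar_bar]
    ring
  have hva : ∀ x, v (bar x) = -v x := by
    rintro ⟨i, φ⟩
    have h1 : v (bar ⟨i, φ⟩) = (e0 i (cbar φ) : ℝ) * Real.log (t i) := hnorm (bar ⟨i, φ⟩)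
    have h2 : v ⟨i, φ⟩ = (e0 i φ : ℝ) * Real.log (t i) := hnorm ⟨i, φ⟩
    rw [h1, h2, he0]
    push_cast
    ring
  have hcount : ∀ E : X → ℝ,
      ∑ y, ((Finset.univ.filter (fun l => I l = y)).card : ℝ) * E y = ∑ l, E (I l) := by
    intro E
    have h2 : ∀ y, ((Finset.univ.filter (fun l => I l = y)).card : ℝ) * E y =
        ∑ l, if I l = y then E y else 0 := by
      intro y
      rw [← Finset.sum_filter, Finset.sum_const, nsmul_eq_mul]
    rw [Finset.sum_congr rfl (fun y _ => h2 y), Finset.sum_comm]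
    refine Finset.sum_congr rfl fun l _ => ?_
    rw [Finset.sum_ite_eq, if_pos (Finset.mem_univ _)]
  have hrel : ∀ σ : L ≃ₐ[ℚ] L, ∑ y, c0 y * v (σ • y) = 0 := by
    intro σ
    have h1 := log_relation jp hw hM I hprod σ
    have h2 : ∀ y : X, c0 y * v (σ • y) =
        ((Finset.univ.filter (fun l => I l = y)).card : ℝ) * v (σ • y) -
        ((Finset.univ.filter (fun l => I l = bar y)).card : ℝ) * v (σ • y) := by
      intro y
      simp only [c0]
      ring
    rw [Finset.sum_congr rfl (fun y _ => h2 y), Finset.sum_sub_distrib,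
      hcount (fun y => v (σ • y))]
    have h3 : ∑ y : X, ((Finset.univ.filter (fun l => I l = bar y)).card : ℝ) * v (σ • y) =
        ∑ y : X, ((Finset.univ.filter (fun l => I l = y)).card : ℝ) * v (σ • bar y) := by
      let B : X ≃ X := ⟨bar, bar, bar_bar, bar_bar⟩
      rw [← Equiv.sum_comp B]
      refine Finset.sum_congr rfl fun y _ => ?_
      change ((Finset.univ.filter (fun l => I l = bar (bar y))).card : ℝ) * v (σ • bar y) = _
      rw [bar_bar]
    have h4 : ∀ l, v (σ • bar (I l)) = -v (σ • I l) := fun l => hva (σ • I l)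
    have h5 : ∑ l, v (σ • I l) = 0 := h1
    rw [h3, hcount (fun y => v (σ • bar y)), Finset.sum_congr rfl (fun l _ => h4 l),
      Finset.sum_neg_distrib, h5]
    norm_num
  have hmain : ∀ i (φ : F i →+* L), c0 ⟨i, φ⟩ * Real.log (t i) = 0 := by
    refine core_sig_real (G := L ≃ₐ[ℚ] L) (fun i => F i →+* L) (fun i => cbar)
      (fun i φ => cbar_cbar φ) (fun i φ => cbar_ne φ) (fun g i φ => rfl) r hr k
      (fun i => by rw [card_emb j (h i), hdeg i]) e0 he0 O hOhalf χ ?_ ?_ hsum
      (fun i φ => c0 ⟨i, φ⟩ * Real.log (t i)) ?_ ?_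
    · -- distinct characters
      intro i i' hii
      by_contra hne
      apply hdist i i' hne
      have h1 : ∀ σ : L ≃ₐ[ℚ] L, σ (s i * s i') = s i * s i' := by
        intro σ
        rw [map_mul, hχs i, hχs i', hii]
        have h2 : ((χ i' σ : ℤ) : L) * ((χ i' σ : ℤ) : L) = 1 := by
          rw [← Int.cast_mul, ← Units.val_mul, Int.units_mul_self, Units.val_one, Int.cast_one]
        linear_combination (s i * s i') * h2
      obtain ⟨x, hx⟩ := (IsGalois.mem_range_algebraMap_iff_fixed (F := ℚ) _).2 h1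
      rw [← Rat.isSquare_natCast_iff]
      refine ⟨x, ?_⟩
      apply (algebraMap ℚ L).injective
      rw [map_mul, hx]
      push_cast
      have h3 := hs2 i
      have h4 := hs2 i'
      linear_combination -(s i' ^ 2) * h3 + (d i : L) * h4
    · intro σ i φ hφ
      rw [hOs] at hφ ⊢
      rw [hχ1, ← hφ]
      rfl
    · intro i φ
      have h1 := hc0 ⟨i, φ⟩
      change c0 (bar ⟨i, φ⟩) * _ = _
      rw [h1]
      ring
    · intro σ
      rw [← hrel σ, Fintype.sum_sigma]
      refine Finset.sum_congr rfl fun i _ => Finset.sum_congr rfl fun φ _ => ?_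
      have h1 : v (σ • (⟨i, φ⟩ : X)) = (e0 i (σ • φ) : ℝ) * Real.log (t i) := hnorm ⟨i, σ • φ⟩
      rw [h1]
      ring
  have h9 := (mul_eq_zero.1 (hmain y.1 y.2)).resolve_right (hlog y.1)
  change c0 y = 0 at h9
  simp only [c0] at h9
  have h10 : ((Finset.univ.filter (fun l => I l = y)).card : ℝ) =
    ((Finset.univ.filter (fun l => I l = bar y)).card : ℝ) := by linarith
  exact_mod_cast h10

end

end Pool.Agent.H204R3.GP
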