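import Mathlib
import Pool.Agent.H194R3.CM.Defs
import Pool.Agent.H204R3.GP.Neat
import Pool.Agent.H204R3.GP.Signature
import Pool.Agent.H204R3.GT.NeatOrd

/-!
# Families of Weil numbers without multiplicative relations
-/

set_option linter.unusedSectionVars false

namespace Pool.Agent.H204R3.GP

open NumberField Module Pool.Agent.H204R3.CM Pool.Agent.H204R3.SP IntermediateField

/-- The elements `π i` are Weil numbers, `π i * conj (π i) = p ^ a`, not supersingular, which
generate CM fields `F i`, such that any two embeddings of these fields, which are different up to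
conjugation, are flipped. -/
structure FlippedFamily (p a : ℕ) [Fact p.Prime] {ι : Type*} {F : ι → Type*}
    [∀ i, Field (F i)] [∀ i, NumberField (F i)] [∀ i, IsCMField (F i)] (π : ∀ i, F i) : Prop where
  gen : ∀ i, ℚ⟮π i⟯ = ⊤
  weil : ∀ i, π i * IsCMField.complexConj (F i) (π i) = (p : F i) ^ a
  slopes : ∀ i, NotSupersingular p a (π i)
  flip : ∀ x y : Σ i, (F i →+* ℂ), y ≠ x → y ≠ H194R3.CM.bar x → H194R3.CM.Flipped x y

/-- The elements `π i` are Weil numbers, `π i * conj (π i) = p ^ a`, with odd slopes, which generate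
CM fields `F i` of degree a power of two with discriminants independent modulo squares. -/
structure DiscriminantFamily (p a : ℕ) [Fact p.Prime] {ι : Type*} [Fintype ι] {F : ι → Type*}
    [∀ i, Field (F i)] [∀ i, NumberField (F i)] [∀ i, IsCMField (F i)] (π : ∀ i, F i) : Prop where
  gen : ∀ i, ℚ⟮π i⟯ = ⊤
  weil : ∀ i, π i * IsCMField.complexConj (F i) (π i) = (p : F i) ^ a
  slopes : ∀ i, OddSlopes p a (π i)
  deg : ∀ i, ∃ d : ℕ, finrank ℚ (F i) = 2 ^ (d + 1)
  disc : ∀ S : Finset ι, S.Nonempty → ¬ IsSquare (∏ i ∈ S, discr (F i))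

/-- The elements `π i` are Weil numbers, `π i * conj (π i) = p ^ a`, which generate CM fields `F i`
of degree two times a power of the odd prime `r`, containing different imaginary quadratic fields
`ℚ(δ i)`, over which the signature of `π i` is prime to `r`. -/
structure SignatureFamily (r p a : ℕ) [Fact p.Prime] {ι : Type*} {F : ι → Type*}
    [∀ i, Field (F i)] [∀ i, NumberField (F i)] [∀ i, IsCMField (F i)] (π δ : ∀ i, F i)
    (d : ι → ℕ) : Prop where
  gen : ∀ i, ℚ⟮π i⟯ = ⊤
  weil : ∀ i, π i * IsCMField.complexConj (F i) (π i) = (p : F i) ^ a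
  deg : ∀ i, ∃ k : ℕ, finrank ℚ (F i) = 2 * r ^ k
  pos : ∀ i, 0 < d i
  sq : ∀ i, δ i ^ 2 = -(d i : F i)
  dist : ∀ i i', i ≠ i' → ¬ IsSquare (d i * d i')
  sig : ∀ i, SignaturePrimeTo r p a (π i) (δ i)

/-- The elements `π i` are ordinary Weil numbers, `π i * conj (π i) = p ^ a`, which generate CM fields
`F i`, such that the product of the `p`-adic units among their conjugates has the largest possible
degree `2 ^ g` over `ℚ`, `2 g = ∑ [F i : ℚ]`. -/
structure UnitRootFamily (p a : ℕ) [Fact p.Prime] {ι : Type*} [Fintype ι] {F : ι → Type*}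
    [∀ i, Field (F i)] [∀ i, NumberField (F i)] [∀ i, IsCMField (F i)] (π : ∀ i, F i) : Prop where
  gen : ∀ i, ℚ⟮π i⟯ = ⊤
  weil : ∀ i, π i * IsCMField.complexConj (F i) (π i) = (p : F i) ^ a
  ordinary : ∀ i, GT.IsOrdinary p a (π i)
  deg : (minpoly ℚ (GT.unitProduct p π)).natDegree = 2 ^ ((∑ i, finrank ℚ (F i)) / 2)

variable {p : ℕ} [Fact p.Prime] {a : ℕ} {ι : Type*} [Fintype ι] {F : ι → Type*}
    [∀ i, Field (F i)] [∀ i, NumberField (F i)] [∀ i, IsCMField (F i)] {π : ∀ i, F i}
    {L : Type*} [Field L] [NumberField L] [IsGalois ℚ L] (j : L →+* ℂ)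
    (h : ∀ i, ∀ ψ : F i →+* ℂ, ∃ φ : F i →+* L, j.comp φ = ψ) (jp : L →+* PadicAlgCl p)

include h in
theorem DiscriminantFamily.neat (ha : 0 < a) (hπ : DiscriminantFamily p a π) : Neat p a π L := by
  classical
  obtain ⟨d, hd⟩ := Classical.axiomOfChoice hπ.deg
  unfold Neat
  intro m M hM I hprod y
  have h1 := balanceG ha hπ.weil hπ.slopes hd hπ.disc j h (IsAlgClosed.lift :
    L →ₐ[ℚ] PadicAlgCl p) hM I hprod y
  convert h1

include h in
theorem UnitRootFamily.neat (ha : 0 < a) (hπ : UnitRootFamily p a π) : Neat p a π L :=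
  GT.neat_of_trans ha hπ.weil hπ.ordinary ((IsAlgClosed.lift : L →ₐ[ℚ] PadicAlgCl p) : L →+* _)
    (GT.trans_of_unitProduct ha hπ.weil hπ.ordinary j _ h hπ.deg.ge)

end Pool.Agent.H204R3.GP
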