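import Mathlib

/-!
# Slopes of Weil numbers: two slopes, low slopes
-/

namespace Pool.Agent.H204R3.GP

/-- All slopes of the Weil number `π` are `x` or `1 - x`, for one number `x` different from `1 / 2`
(for instance `0` and `1`, the ordinary case): all the absolute values `‖τ π‖ ^ 2` are `‖q‖ * t` or
`‖q‖ / t`. -/
def TwoSlopes (p a : ℕ) [Fact p.Prime] {F : Type*} [Field F] (π : F) : Prop :=
  ∃ t : ℝ, 0 < t ∧ t ≠ 1 ∧ ∀ τ : F →+* PadicAlgCl p,
    ‖τ π‖ ^ 2 = ‖(p : PadicAlgCl p) ^ a‖ * t ∨ ‖τ π‖ ^ 2 = ‖(p : PadicAlgCl p) ^ a‖ * t⁻¹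

/-- The number of the `p`-adic embeddings `τ` which take the same value at `δ` as `τ₀`, and such
that the slope of `τ π` is less than `1 / 2`. -/
noncomputable def lowSlopes (p a : ℕ) [Fact p.Prime] {F : Type*} [Field F] (π δ : F)
    (τ₀ : F →+* PadicAlgCl p) : ℕ :=
  Nat.card {τ : F →+* PadicAlgCl p // τ δ = τ₀ δ ∧ ‖(p : PadicAlgCl p) ^ a‖ < ‖τ π‖ ^ 2}

end Pool.Agent.H204R3.GP
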