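import Mathlib
import Pool.Agent.H194R3.CM.Block2
import Pool.Agent.H204R3.GP.Delta
import Pool.Agent.H204R3.GP.PairDefs

/-!
# Tate classes and one Frobenius element: pair-transitive totally real fields
-/

set_option linter.unusedSectionVars false
set_option linter.unusedVariables false

namespace Pool.Agent.H204R3.GP

open NumberField Module Pool.Agent.H204R3.CM Pool.Agent.H204R3.SP Pool.Agent.H925R2

noncomputable section

/-- The criterion for pair-transitive totally real fields. -/
theorem neat_of_pair {p : ℕ} [Fact p.Prime] {a : ℕ} {ι : Type*} [Fintype ι] {F : ι → Type*}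
    [∀ i, Field (F i)] [∀ i, NumberField (F i)] [∀ i, IsCMField (F i)] {π : ∀ i, F i}
    {L : Type*} [Field L] [NumberField L] [IsGalois ℚ L] (j : L →+* ℂ)
    (h : ∀ i, ∀ ψ : F i →+* ℂ, ∃ φ : F i →+* L, j.comp φ = ψ) (jp : L →+* PadicAlgCl p)
    (hw : ∀ i, π i * IsCMField.complexConj (F i) (π i) = (p : F i) ^ a)
    (hslope : ∀ i, TwoSlopes p a (π i))
    (hpair : ∀ i, H194R3.CM.PairTransitive (maximalRealSubfield (F i)))
    (hdeg : ∀ i, Odd (finrank ℚ (maximalRealSubfield (F i))) ∨
      (finrank ℚ (maximalRealSubfield (F i)) - 1).Prime ∨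
      H194R3.CM.TripleTransitive (maximalRealSubfield (F i)))
    (hflip : ∀ x y : Σ i, (F i →+* ℂ), y.1 ≠ x.1 → H194R3.CM.Flipped x y)
    (hlow : ∀ i, finrank ℚ (maximalRealSubfield (F i)) = 1 ∨
      ∀ (δ : F i) (d : ℕ), 0 < d → δ ^ 2 = -(d : F i) → ∀ τ : F i →+* PadicAlgCl p,
        lowSlopes p a (π i) δ τ ≠ 0 ∧
          2 * lowSlopes p a (π i) δ τ ≠ finrank ℚ (maximalRealSubfield (F i))) :
    Neat p a π L := by
  classical
  intro m M hM I hprod y
  have h0 := norm_q_pos p a
  set Q : ℝ := ‖(p : PadicAlgCl p) ^ a‖ with hQ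
  let X := Σ i, (F i →+* L)
  let J : X → Σ i, (F i →+* ℂ) := fun x => ⟨x.1, j.comp x.2⟩
  have hJ : Function.Injective J := by
    rintro ⟨a, φ⟩ ⟨b, ψ⟩ h
    simp only [J, Sigma.mk.injEq] at h
    obtain ⟨rfl, h⟩ := h
    rw [H194R3.CM.comp_injective j (eq_of_heq h)]
  have hJinv : ∀ x : X, J (bar x) = H194R3.CM.bar (J x) := by
    rintro ⟨a, φ⟩
    simp only [J, bar, comp_cbar, H194R3.CM.bar]
  have hne : ∀ x : X, ‖jp (val π x)‖ ≠ 0 := by
    intro x h1
    rw [norm_eq_zero] at h1
    have h2 := val_bar (L := L) hw x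
    have h3 : val π x = 0 := jp.injective (by rw [h1, map_zero])
    rw [h3, zero_mul] at h2
    exact pow_ne_zero a (Nat.cast_ne_zero.2 (Fact.out : p.Prime).ne_zero) h2.symm
  let v : X → ℝ := fun x => 2 * Real.log ‖jp (val π x)‖ - Real.log Q
  have hva : ∀ x, v (bar x) = -v x := by
    intro x
    have h1 := congrArg (fun z => Real.log ‖jp z‖) (val_bar (L := L) hw x)
    simp only [map_mul, norm_mul, map_pow, map_natCast] at h1
    rw [Real.log_mul (hne _) (hne _)] at h1
    simp only [v, hQ]
    linarith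
  -- the signs
  choose t ht0 ht1 ht using hslope
  have hlog : ∀ i, Real.log (t i) ≠ 0 := fun i =>
    Real.log_ne_zero_of_pos_of_ne_one (ht0 i) (ht1 i)
  let e : ∀ i, (F i →+* L) → ℤ := fun i φ =>
    if ‖jp (val π (⟨i, φ⟩ : X))‖ ^ 2 = Q * t i then 1 else -1
  have hepm : ∀ i φ, e i φ = 1 ∨ e i φ = -1 := by
    intro i φ
    simp only [e]
    split_ifs <;> simp
  have hve : ∀ i φ, v ⟨i, φ⟩ = (e i φ : ℝ) * Real.log (t i) := by
    intro i φ
    have h1 := ht i (jp.comp φ)
    have h2 : (2 : ℝ) * Real.log ‖jp (val π (⟨i, φ⟩ : X))‖ =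
        Real.log (‖jp (val π (⟨i, φ⟩ : X))‖ ^ 2) := by
      rw [Real.log_pow]
      push_cast
      rfl
    have h3 : v ⟨i, φ⟩ = Real.log (‖jp (val π (⟨i, φ⟩ : X))‖ ^ 2) - Real.log Q := by
      rw [← h2]
    rw [h3]
    by_cases h4 : ‖jp (val π (⟨i, φ⟩ : X))‖ ^ 2 = Q * t i
    · simp only [e]
      rw [if_pos h4, h4, Real.log_mul h0.ne' (ht0 i).ne']
      push_cast
      ring
    · have h5 : ‖jp (val π (⟨i, φ⟩ : X))‖ ^ 2 = Q * (t i)⁻¹ := h1.resolve_left h4
      simp only [e]
      rw [if_neg h4, h5, Real.log_mul h0.ne' (inv_ne_zero (ht0 i).ne'), Real.log_inv]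
      push_cast
      ring
  have hea : ∀ i φ, e i (cbar φ) = -e i φ := by
    intro i φ
    have h1 : v (bar (⟨i, φ⟩ : X)) = -v ⟨i, φ⟩ := hva ⟨i, φ⟩
    have h2 : v (bar (⟨i, φ⟩ : X)) = (e i (cbar φ) : ℝ) * Real.log (t i) := hve i (cbar φ)
    rw [h2, hve, ← neg_mul] at h1
    have h3 := mul_right_cancel₀ (hlog i) h1
    exact_mod_cast h3
  -- low slopes
  have hlowe : ∀ i (φ : F i →+* L), (Q < ‖(jp.comp φ) (π i)‖ ^ 2 ↔
      0 < (e i φ : ℝ) * Real.log (t i)) := by
    intro i φ
    rw [← hve]
    have h1 : v ⟨i, φ⟩ = Real.log (‖(jp.comp φ) (π i)‖ ^ 2) - Real.log Q := by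
      rw [Real.log_pow]
      push_cast
      rfl
    have h2 : 0 < ‖(jp.comp φ) (π i)‖ ^ 2 :=
      pow_pos (lt_of_le_of_ne (norm_nonneg _) (hne ⟨i, φ⟩).symm) 2
    rw [h1, sub_pos, Real.log_lt_log_iff h0 h2]
  -- the relation
  let c0 : X → ℤ := fun y => ((Finset.univ.filter (fun l => I l = y)).card : ℤ) -
    ((Finset.univ.filter (fun l => I l = bar y)).card : ℤ)
  have hc0 : ∀ y, c0 (bar y) = -c0 y := by
    intro y
    simp only [c0, bar_bar]
    ring
  have hcount : ∀ E : X → ℝ,
      ∑ y, ((Finset.univ.filter (fun l => I l = y)).card : ℝ) * E y = ∑ l, E (I l) := by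
    intro E
    have h2 : ∀ y, ((Finset.univ.filter (fun l => I l = y)).card : ℝ) * E y =
        ∑ l, if I l = y then E y else 0 := by
      intro y
      rw [← Finset.sum_filter, Finset.sum_const, nsmul_eq_mul]
    rw [Finset.sum_congr rfl (fun y _ => h2 y), Finset.sum_comm]
    refine Finset.sum_congr rfl fun l _ => ?_
    rw [Finset.sum_ite_eq, if_pos (Finset.mem_univ _)]
  have hrel : ∀ σ : L ≃ₐ[ℚ] L, ∑ y, (c0 y : ℝ) * v (σ • y) = 0 := by
    intro σ
    have h1 := log_relation jp hw hM I hprod σ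
    have h2 : ∀ y : X, (c0 y : ℝ) * v (σ • y) =
        ((Finset.univ.filter (fun l => I l = y)).card : ℝ) * v (σ • y) -
        ((Finset.univ.filter (fun l => I l = bar y)).card : ℝ) * v (σ • y) := by
      intro y
      simp only [c0]
      push_cast
      ring
    rw [Finset.sum_congr rfl (fun y _ => h2 y), Finset.sum_sub_distrib,
      hcount (fun y => v (σ • y))]
    have h3 : ∑ y : X, ((Finset.univ.filter (fun l => I l = bar y)).card : ℝ) * v (σ • y) =
        ∑ y : X, ((Finset.univ.filter (fun l => I l = y)).card : ℝ) * v (σ • bar y) := by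
      let B : X ≃ X := ⟨bar, bar, bar_bar, bar_bar⟩
      rw [← Equiv.sum_comp B]
      refine Finset.sum_congr rfl fun y _ => ?_
      change ((Finset.univ.filter (fun l => I l = bar (bar y))).card : ℝ) * v (σ • bar y) = _
      rw [bar_bar]
    have h4 : ∀ l, v (σ • bar (I l)) = -v (σ • I l) := fun l => hva (σ • I l)
    have h5 : ∑ l, v (σ • I l) = 0 := h1
    rw [h3, hcount (fun y => v (σ • bar y)), Finset.sum_congr rfl (fun l _ => h4 l),
      Finset.sum_neg_distrib, h5]
    norm_num
  have hblock := core_block_real (X := X) (G := L ≃ₐ[ℚ] L) bar (fun g x => rfl) (fun x => x.1) v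
    hva (fun x y hxy => by
      obtain ⟨τ, hτ⟩ := hflip (J x) (J y) hxy
      obtain ⟨σ, hσ⟩ := H194R3.CM.exists_restrict j τ
      have hJσ : ∀ z : X, J (σ • z) = H194R3.CM.move τ (J z) := by
        rintro ⟨a, φ⟩
        exact congrArg (Sigma.mk a) (H194R3.CM.comp_smul_of_restrict j τ σ hσ φ)
      refine ⟨σ, ?_⟩
      rcases hτ with ⟨h3, h4⟩ | ⟨h3, h4⟩ | ⟨h3, h4⟩
      · refine Or.inl ⟨hJ ?_, hJ ?_⟩
        · rw [hJσ, h3]
        · rw [hJσ, hJinv, h4]
      · refine Or.inr ⟨hJ ?_, hJ ?_⟩
        · rw [hJσ, hJinv, h3]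
        · rw [hJσ, h4]
      · exfalso
        apply hxy
        exact (congrArg Sigma.fst h3).symm) (fun y => (c0 y : ℝ)) hrel
  -- the relation on one block
  have hblock' : ∀ i, ∀ g : L ≃ₐ[ℚ] L, ∑ φ : F i →+* L, c0 ⟨i, φ⟩ * e i (g • φ) = 0 := by
    intro i g
    have h1 := hblock i g
    rw [Finset.sum_filter, Fintype.sum_sigma, Finset.sum_eq_single i] at h1
    · have h2 : ∑ φ : F i →+* L, (c0 ⟨i, φ⟩ : ℝ) * ((e i (g • φ) : ℝ) * Real.log (t i)) = 0 := by
        rw [← h1]
        refine Finset.sum_congr rfl fun φ _ => ?_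
        rw [if_pos rfl, ← hve]
        rfl
      simp only [← mul_assoc] at h2
      rw [← Finset.sum_mul] at h2
      have h3 := (mul_eq_zero.1 h2).resolve_right (hlog i)
      exact_mod_cast h3
    · intro b _ hb
      refine Finset.sum_eq_zero fun φ _ => ?_
      rw [if_neg hb]
    · intro h
      exact absurd (Finset.mem_univ _) h
  have hmain : ∀ i (φ : F i →+* L), c0 ⟨i, φ⟩ = 0 := by
    intro i
    have hcardi : Fintype.card (F i →+* L) = 2 * finrank ℚ (maximalRealSubfield (F i)) := by
      have h0 : finrank (maximalRealSubfield (F i)) (F i) = 2 :=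
        Algebra.IsQuadraticExtension.finrank_eq_two _ _
      rw [card_emb j (h i), ← finrank_mul_finrank ℚ (maximalRealSubfield (F i)) (F i),
        h0, mul_comm]
    rcases hlow i with hone | hlow
    · -- an imaginary quadratic field
      intro φ
      have h1 : (Finset.univ : Finset (F i →+* L)) = {φ, cbar φ} := by
        symm
        apply Finset.eq_univ_of_card
        rw [hcardi, hone, Finset.card_pair (cbar_ne φ).symm]
      have h2 := hblock' i 1
      simp only [one_smul] at h2
      rw [h1, Finset.sum_pair (cbar_ne φ).symm] at h2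
      have h3 : c0 ⟨i, cbar φ⟩ = -c0 ⟨i, φ⟩ := hc0 ⟨i, φ⟩
      rw [h3, hea] at h2
      have h4 : c0 ⟨i, φ⟩ * e i φ = 0 := by linarith
      rcases mul_eq_zero.1 h4 with h5 | h5
      · exact h5
      · exfalso
        rcases hepm i φ with h6 | h6 <;> rw [h6] at h5 <;> norm_num at h5
    -- the consequence of a sign vector
    have hsign : ∀ v' : (F i →+* L) → ℤ, (∀ x, v' x = 1 ∨ v' x = -1) →
        (∀ x, v' (cbar x) = -v' x) →
        (∀ (g : L ≃ₐ[ℚ] L) x y, v' (g • x) * v' (g • y) = v' x * v' y) → ∀ x₀ : F i →+* L,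
        ∃ N : ℕ, N = (Finset.univ.filter (fun x : F i →+* L => v' x = v' x₀ ∧
          0 < (e i x : ℝ) * Real.log (t i))).card ∧ N ≠ 0 ∧
          2 * N ≠ finrank ℚ (maximalRealSubfield (F i)) := by
      intro v' hv hvn hvs x₀
      obtain ⟨δ, d, hd, hδ, hδv⟩ := exists_delta j (h i) v' hv hvn hvs
      have h1 := hlow δ d hd hδ (jp.comp x₀)
      have h2 : lowSlopes p a (π i) δ (jp.comp x₀) =
          (Finset.univ.filter (fun x : F i →+* L => v' x = v' x₀ ∧
            0 < (e i x : ℝ) * Real.log (t i))).card := by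
        unfold lowSlopes
        rw [← Fintype.card_subtype, ← Nat.card_eq_fintype_card]
        symm
        refine Nat.card_congr (Equiv.ofBijective (fun x => ⟨jp.comp x.1, ?_, ?_⟩) ⟨?_, ?_⟩)
        · have h3 := (hδv x.1 x₀).2 x.2.1
          rw [RingHom.comp_apply, RingHom.comp_apply, h3]
        · exact (hlowe i x.1).2 x.2.2
        · intro x y hxy
          apply Subtype.ext
          have h3 : jp.comp x.1 = jp.comp y.1 := congrArg Subtype.val hxy
          ext z
          exact jp.injective (RingHom.congr_fun h3 z)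
        · rintro ⟨τ, h3, h4⟩
          obtain ⟨φ, rfl⟩ := exists_factor j (h i) jp τ
          refine ⟨⟨φ, (hδv φ x₀).1 (jp.injective h3), (hlowe i φ).1 h4⟩, rfl⟩
      exact ⟨_, rfl, by rw [← h2]; exact h1.1, by rw [← h2]; exact h1.2⟩
    rcases H194R3.CM.core_pair (X := F i →+* L) (G := L ≃ₐ[ℚ] L) cbar cbar_cbar cbar_ne
      (fun g x => rfl) (finrank ℚ (maximalRealSubfield (F i))) finrank_pos hcardi
      (by
        rcases hdeg i with h | h | h
        · exact Or.inl h
        · exact Or.inr (Or.inl h)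
        · exact Or.inr (Or.inr fun x y hx hy => H194R3.CM.triple_transfer j h x y hx hy))
      (fun x y x' y' h1 h2 h1' h2' =>
        H194R3.CM.pair_transfer j (hpair i) x y x' y' h1 h2 h1' h2')
      (e i) (hepm i) (hea i) (fun φ => c0 ⟨i, φ⟩) (fun φ => hc0 ⟨i, φ⟩) (hblock' i)
      with h1 | h1 | h1
    · exact h1
    · exfalso
      -- all low slopes lie over one embedding of an imaginary quadratic field
      obtain ⟨x₀⟩ : Nonempty (F i →+* L) := by
        rw [← Fintype.card_pos_iff, card_emb j (h i)]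
        exact finrank_pos
      obtain ⟨x₁, hx₁⟩ : ∃ x₁ : F i →+* L, (e i x₁ : ℝ) * Real.log (t i) < 0 := by
        rcases lt_or_gt_of_ne (hlog i) with h2 | h2
        · rcases hepm i x₀ with h3 | h3
          · exact ⟨x₀, by rw [h3]; push_cast; linarith⟩
          · exact ⟨cbar x₀, by rw [hea, h3]; push_cast; linarith⟩
        · rcases hepm i x₀ with h3 | h3
          · exact ⟨cbar x₀, by rw [hea, h3]; push_cast; linarith⟩
          · exact ⟨x₀, by rw [h3]; push_cast; linarith⟩
      obtain ⟨N, hN, hN0, _⟩ := hsign (e i) (hepm i) (hea i) h1 x₁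
      apply hN0
      rw [hN, Finset.card_eq_zero, Finset.filter_eq_empty_iff]
      rintro x _ ⟨h2, h3⟩
      rw [h2] at h3
      linarith
    · exfalso
      obtain ⟨v', hv, hvn, hvs, hvo⟩ := h1
      obtain ⟨x₀⟩ : Nonempty (F i →+* L) := by
        rw [← Fintype.card_pos_iff, card_emb j (h i)]
        exact finrank_pos
      obtain ⟨N, hN, _, hN2⟩ := hsign v' hv hvn hvs x₀
      apply hN2
      let O : Finset (F i →+* L) := Finset.univ.filter (fun x => v' x = v' x₀)
      have hOhalf : IsHalf cbar O := by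
        intro x
        simp only [O, Finset.mem_filter, Finset.mem_univ, true_and, hvn]
        rcases hv x with h | h <;> rcases hv x₀ with h' | h' <;> rw [h, h'] <;> norm_num
      have hOcard : O.card = finrank ℚ (maximalRealSubfield (F i)) := by
        have := hOhalf.card cbar_cbar
        omega
      have h2 := hvo 1
      simp only [one_smul] at h2
      rw [hOhalf.sum_symm cbar_cbar (fun x => e i x * v' x) (fun x => by
        simp only [hea, hvn]; ring)] at h2
      have h3 : ∑ x ∈ O, e i x * v' x = v' x₀ * ∑ x ∈ O, e i x := by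
        rw [Finset.mul_sum]
        refine Finset.sum_congr rfl fun x hx => ?_
        rw [(Finset.mem_filter.1 hx).2]
        ring
      have h4 : ∑ x ∈ O, e i x = 0 := by
        rw [h3] at h2
        rcases hv x₀ with h | h <;> rw [h] at h2 <;> linarith
      -- count
      obtain ⟨ε, hε, hεpm⟩ : ∃ ε : ℤ, (∀ x, (0 < (e i x : ℝ) * Real.log (t i) ↔ e i x = ε)) ∧
          (ε = 1 ∨ ε = -1) := by
        rcases lt_or_gt_of_ne (hlog i) with h5 | h5
        · refine ⟨-1, fun x => ⟨fun h6 => ?_, fun h6 => ?_⟩, Or.inr rfl⟩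
          · rcases hepm i x with h7 | h7
            · exfalso
              rw [h7] at h6
              push_cast at h6
              linarith
            · exact h7
          · rw [h6]
            push_cast
            linarith
        · refine ⟨1, fun x => ⟨fun h6 => ?_, fun h6 => ?_⟩, Or.inl rfl⟩
          · rcases hepm i x with h7 | h7
            · exact h7
            · exfalso
              rw [h7] at h6
              push_cast at h6
              linarith
          · rw [h6]
            push_cast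
            linarith
      have hN' : N = (O.filter (fun x => e i x = ε)).card := by
        rw [hN, Finset.filter_filter]
        congr 1
        ext x
        simp only [Finset.mem_filter, Finset.mem_univ, true_and, hε]
      have h6 : ∑ x ∈ O, (e i x * ε + 1) = 2 * ((O.filter (fun x => e i x = ε)).card : ℤ) := by
        rw [← Finset.sum_boole, Finset.mul_sum]
        refine Finset.sum_congr rfl fun x _ => ?_
        rcases hepm i x with h7 | h7 <;> rcases hεpm with h8 | h8 <;> rw [h7, h8] <;> norm_num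
      rw [Finset.sum_add_distrib, ← Finset.sum_mul, h4, Finset.sum_const, hOcard] at h6
      rw [hN']
      simp only [zero_mul, zero_add, nsmul_eq_mul, mul_one] at h6
      exact_mod_cast h6.symm
  have h9 := hmain y.1 y.2
  change c0 y = 0 at h9
  simp only [c0] at h9
  omega

end

end Pool.Agent.H204R3.GP
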