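import Mathlib
import Pool.Agent.H194R3.CM.Defs
import Pool.Agent.H204R3.GP.PairDefs

/-!
# Families of Weil numbers in CM fields with pair-transitive maximal real subfields
-/

namespace Pool.Agent.H204R3.GP

open NumberField Module Pool.Agent.H194R3.CM IntermediateField

/-- For every imaginary quadratic subfield `ℚ(δ)` of the CM field `F` of degree `2 n`, `n > 1`, the
number of the slopes of the Weil number `π` which are less than `1 / 2`, over a fixed `p`-adic
embedding of `ℚ(δ)`, is different from `0` and from `n / 2`. -/
def LowSlopesCondition (p a : ℕ) [Fact p.Prime] {F : Type*} [Field F] [NumberField F]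
    (π : F) : Prop :=
  finrank ℚ (maximalRealSubfield F) = 1 ∨
    ∀ (δ : F) (d : ℕ), 0 < d → δ ^ 2 = -(d : F) → ∀ τ : F →+* PadicAlgCl p,
      lowSlopes p a π δ τ ≠ 0 ∧ 2 * lowSlopes p a π δ τ ≠ finrank ℚ (maximalRealSubfield F)

/-- The elements `π i` are Weil numbers, with `π i * conj (π i) = p ^ a`, with two slopes, which
generate CM fields `F i` with pair-transitive maximal real subfields `R i` of degree `n i`, such that
`n i` is odd, or `n i - 1` is a prime number, or `R i` is triple-transitive; the embeddings of
different fields `F i` are flipped, and the condition on the low slopes over imaginary quadratic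
subfields is satisfied. -/
structure PairTransitiveFamily (p a : ℕ) [Fact p.Prime] {ι : Type*} {F : ι → Type*}
    [∀ i, Field (F i)] [∀ i, NumberField (F i)] [∀ i, IsCMField (F i)] (π : ∀ i, F i) : Prop where
  gen : ∀ i, ℚ⟮π i⟯ = ⊤
  weil : ∀ i, π i * IsCMField.complexConj (F i) (π i) = (p : F i) ^ a
  slopes : ∀ i, TwoSlopes p a (π i)
  pair : ∀ i, PairTransitive (maximalRealSubfield (F i))
  deg : ∀ i, Odd (finrank ℚ (maximalRealSubfield (F i))) ∨
    (finrank ℚ (maximalRealSubfield (F i)) - 1).Prime ∨
    TripleTransitive (maximalRealSubfield (F i))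
  flip : ∀ x y : Σ i, (F i →+* ℂ), y.1 ≠ x.1 → Flipped x y
  low : ∀ i, LowSlopesCondition p a (π i)

end Pool.Agent.H204R3.GP
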