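import Mathlib

/-!
# The signature of a Weil number over a CM subfield
-/

namespace Pool.Agent.H204R3.GP

open NumberField

/-- The signature of the Weil number `π` of `E` over the CM subfield `F` is nondegenerate modulo
`r`: write `‖τ π‖ ^ 2 = ‖q‖ * t ^ u(τ)` with integers `u(τ)`, for the `p`-adic embeddings `τ` of `E`,
where `t` is a positive real number (so that `u(τ)` is a multiple of the slope minus `1 / 2`).
Denote by `A(σ)` the sum of the `u(τ)` over all `τ` which extend an embedding `σ` of `F`.  The
translates of the function `A` modulo `r` under the automorphisms `g` of the algebraic closure of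
`ℚ_p` (it is the same to use endomorphisms) satisfy no common antisymmetric linear relation `b`. -/
def TowerSignature (r p a : ℕ) [Fact p.Prime] (F : Type*) {E : Type*} [Field F] [NumberField F]
    [IsCMField F] [Field E] [NumberField E] [Algebra F E] (π : E) : Prop :=
  ∃ t : ℝ, 0 < t ∧ t ≠ 1 ∧ ∃ u : (E →+* PadicAlgCl p) → ℤ,
    (∀ τ, ‖τ π‖ ^ 2 = ‖(p : PadicAlgCl p) ^ a‖ * t ^ u τ) ∧
    ∀ b : (F →+* PadicAlgCl p) → ZMod r,
      (∀ σ, b (σ.comp (IsCMField.complexConj F : F →+* F)) = -b σ) →
      (∀ g : PadicAlgCl p →+* PadicAlgCl p,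
        ∑ τ : E →+* PadicAlgCl p, b (τ.comp (algebraMap F E)) * (u (g.comp τ) : ZMod r) = 0) →
      ∀ σ, b σ = 0

end Pool.Agent.H204R3.GP
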