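import Mathlib
import Pool.Agent.H194R3.CM.Defs
import Pool.Agent.H204R3.GP.TowerSigDefs

/-!
# Families of Weil numbers in extensions of prime power degree of CM fields
-/

namespace Pool.Agent.H204R3.GP

open NumberField Module Pool.Agent.H194R3.CM IntermediateField

/-- The elements `π i` are Weil numbers, with `π i * conj (π i) = p ^ a`, which generate the CM
fields `E i`; `F i` is a CM subfield of `E i` (embedded by the algebra structure), `r i` is a prime
number which does not divide the degree of the Galois closure of `F i`,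
`[E i : F i] = r i ^ k i`, and the signature of `π i` over `F i` is nondegenerate modulo `r i`.
Embeddings of different fields `E i` are flipped. -/
structure TowerFamily (p a : ℕ) [Fact p.Prime] {ι : Type*} (F E : ι → Type*)
    [∀ i, Field (F i)] [∀ i, NumberField (F i)] [∀ i, IsCMField (F i)]
    [∀ i, Field (E i)] [∀ i, NumberField (E i)] [∀ i, IsCMField (E i)] [∀ i, Algebra (F i) (E i)]
    (r k : ι → ℕ) (π : ∀ i, E i) : Prop where
  gen : ∀ i, ℚ⟮π i⟯ = ⊤
  weil : ∀ i, π i * IsCMField.complexConj (E i) (π i) = (p : E i) ^ a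
  prime : ∀ i, (r i).Prime
  closure : ∀ i, ¬ r i ∣ finrank ℚ (IntermediateField.normalClosure ℚ (F i) ℂ)
  degree : ∀ i, finrank (F i) (E i) = r i ^ k i
  signature : ∀ i, TowerSignature (r i) p a (F i) (π i)
  flip : ∀ x y : Σ i, (E i →+* ℂ), y.1 ≠ x.1 → Flipped x y

end Pool.Agent.H204R3.GP
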