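import Mathlib
import Pool.Agent.H977R3.CM.Closure
import Pool.Agent.H977R3.CM.Tower
import Pool.Agent.H204R3.GP.Delta
import Pool.Agent.H204R3.GP.TowerSigDefs

/-!
# Tate classes and one Frobenius element: towers of prime power degree over CM fields
-/

set_option linter.unusedSectionVars false
set_option linter.unusedVariables false

namespace Pool.Agent.H204R3.GP

open NumberField Module Pool.Agent.H204R3.CM Pool.Agent.H204R3.SP Pool.Agent.H925R2
  Pool.Agent.H977R3.CM

noncomputable section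

/-- An endomorphism of an algebraically closed field acts on the image of a Galois extension. -/
theorem exists_restrict' {L : Type*} [Field L] [NumberField L] [IsGalois ℚ L] {A : Type*} [Field A]
    [CharZero A] [IsAlgClosed A] (j : L →+* A) (τ : A →+* A) :
    ∃ σ : L ≃ₐ[ℚ] L, ∀ x, j (σ x) = τ (j x) := by
  classical
  have hinj : Function.Injective (fun σ : L ≃ₐ[ℚ] L => j.comp (σ : L →+* L)) := by
    intro σ σ' h
    ext x
    exact j.injective (RingHom.congr_fun h x)
  have hbij : Function.Bijective (fun σ : L ≃ₐ[ℚ] L => j.comp (σ : L →+* L)) := by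
    rw [Fintype.bijective_iff_injective_and_card]
    exact ⟨hinj, by rw [Embeddings.card L A, ← Nat.card_eq_fintype_card,
      IsGalois.card_aut_eq_finrank]⟩
  obtain ⟨σ, hσ⟩ := hbij.2 (τ.comp j)
  exact ⟨σ, fun x => RingHom.congr_fun hσ x⟩

/-- The criterion for towers. -/
theorem neat_of_tower {p : ℕ} [Fact p.Prime] {a : ℕ} {ι : Type*} [Fintype ι] {E : ι → Type*}
    [∀ i, Field (E i)] [∀ i, NumberField (E i)] [∀ i, IsCMField (E i)] {π : ∀ i, E i}
    {F : ι → Type*} [∀ i, Field (F i)] [∀ i, NumberField (F i)] [∀ i, IsCMField (F i)]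
    [∀ i, Algebra (F i) (E i)]
    {L : Type*} [Field L] [NumberField L] [IsGalois ℚ L] (j : L →+* ℂ)
    (h : ∀ i, ∀ ψ : E i →+* ℂ, ∃ φ : E i →+* L, j.comp φ = ψ) (jp : L →+* PadicAlgCl p)
    (hw : ∀ i, π i * IsCMField.complexConj (E i) (π i) = (p : E i) ^ a)
    (r k : ι → ℕ) (hr : ∀ i, (r i).Prime) (hdeg : ∀ i, finrank (F i) (E i) = r i ^ k i)
    (hno : ∀ i, NoOrder (F i) (r i))
    (hsig : ∀ i, TowerSignature (r i) p a (F i) (π i))
    (hflip : ∀ x y : Σ i, (E i →+* ℂ), y.1 ≠ x.1 → H194R3.CM.Flipped x y) :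
    Neat p a π L := by
  classical
  intro m M hM I hprod y
  have h0 := norm_q_pos p a
  set Q : ℝ := ‖(p : PadicAlgCl p) ^ a‖ with hQ
  let X := Σ i, (E i →+* L)
  let J : X → Σ i, (E i →+* ℂ) := fun x => ⟨x.1, j.comp x.2⟩
  have hJ : Function.Injective J := by
    rintro ⟨a, φ⟩ ⟨b, ψ⟩ h
    simp only [J, Sigma.mk.injEq] at h
    obtain ⟨rfl, h⟩ := h
    rw [H194R3.CM.comp_injective j (eq_of_heq h)]
  have hJinv : ∀ x : X, J (bar x) = H194R3.CM.bar (J x) := by
    rintro ⟨a, φ⟩
    simp only [J, bar, comp_cbar, H194R3.CM.bar]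
  have hne : ∀ x : X, ‖jp (val π x)‖ ≠ 0 := by
    intro x h1
    rw [norm_eq_zero] at h1
    have h2 := val_bar (L := L) hw x
    have h3 : val π x = 0 := jp.injective (by rw [h1, map_zero])
    rw [h3, zero_mul] at h2
    exact pow_ne_zero a (Nat.cast_ne_zero.2 (Fact.out : p.Prime).ne_zero) h2.symm
  let v : X → ℝ := fun x => 2 * Real.log ‖jp (val π x)‖ - Real.log Q
  have hva : ∀ x, v (bar x) = -v x := by
    intro x
    have h1 := congrArg (fun z => Real.log ‖jp z‖) (val_bar (L := L) hw x)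
    simp only [map_mul, norm_mul, map_pow, map_natCast] at h1
    rw [Real.log_mul (hne _) (hne _)] at h1
    simp only [v, hQ]
    linarith
  -- the slopes
  choose t ht0 ht1 u hu1 hu2 using hsig
  have hlog : ∀ i, Real.log (t i) ≠ 0 := fun i =>
    Real.log_ne_zero_of_pos_of_ne_one (ht0 i) (ht1 i)
  let e : ∀ i, (E i →+* L) → ℤ := fun i φ => u i (jp.comp φ)
  have hve : ∀ i φ, v ⟨i, φ⟩ = (e i φ : ℝ) * Real.log (t i) := by
    intro i φ
    have h1 := congrArg Real.log (hu1 i (jp.comp φ))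
    rw [Real.log_mul h0.ne' (zpow_pos (ht0 _) _).ne', Real.log_pow, Real.log_zpow] at h1
    change ((2 : ℕ) : ℝ) * Real.log ‖jp (val π (⟨i, φ⟩ : X))‖ =
      Real.log Q + (e i φ : ℝ) * Real.log (t i) at h1
    push_cast at h1
    simp only [v]
    linarith
  have hea : ∀ i φ, e i (cbar φ) = -e i φ := by
    intro i φ
    have h1 : v (bar (⟨i, φ⟩ : X)) = -v ⟨i, φ⟩ := hva ⟨i, φ⟩
    have h2 : v (bar (⟨i, φ⟩ : X)) = (e i (cbar φ) : ℝ) * Real.log (t i) := hve i (cbar φ)
    rw [h2, hve, ← neg_mul] at h1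
    have h3 := mul_right_cancel₀ (hlog i) h1
    exact_mod_cast h3
  -- the relation
  let c0 : X → ℤ := fun y => ((Finset.univ.filter (fun l => I l = y)).card : ℤ) -
    ((Finset.univ.filter (fun l => I l = bar y)).card : ℤ)
  have hc0 : ∀ y, c0 (bar y) = -c0 y := by
    intro y
    simp only [c0, bar_bar]
    ring
  have hcount : ∀ E : X → ℝ,
      ∑ y, ((Finset.univ.filter (fun l => I l = y)).card : ℝ) * E y = ∑ l, E (I l) := by
    intro E
    have h2 : ∀ y, ((Finset.univ.filter (fun l => I l = y)).card : ℝ) * E y =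
        ∑ l, if I l = y then E y else 0 := by
      intro y
      rw [← Finset.sum_filter, Finset.sum_const, nsmul_eq_mul]
    rw [Finset.sum_congr rfl (fun y _ => h2 y), Finset.sum_comm]
    refine Finset.sum_congr rfl fun l _ => ?_
    rw [Finset.sum_ite_eq, if_pos (Finset.mem_univ _)]
  have hrel : ∀ σ : L ≃ₐ[ℚ] L, ∑ y, (c0 y : ℝ) * v (σ • y) = 0 := by
    intro σ
    have h1 := log_relation jp hw hM I hprod σ
    have h2 : ∀ y : X, (c0 y : ℝ) * v (σ • y) =
        ((Finset.univ.filter (fun l => I l = y)).card : ℝ) * v (σ • y) -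
        ((Finset.univ.filter (fun l => I l = bar y)).card : ℝ) * v (σ • y) := by
      intro y
      simp only [c0]
      push_cast
      ring
    rw [Finset.sum_congr rfl (fun y _ => h2 y), Finset.sum_sub_distrib,
      hcount (fun y => v (σ • y))]
    have h3 : ∑ y : X, ((Finset.univ.filter (fun l => I l = bar y)).card : ℝ) * v (σ • y) =
        ∑ y : X, ((Finset.univ.filter (fun l => I l = y)).card : ℝ) * v (σ • bar y) := by
      let B : X ≃ X := ⟨bar, bar, bar_bar, bar_bar⟩
      rw [← Equiv.sum_comp B]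
      refine Finset.sum_congr rfl fun y _ => ?_
      change ((Finset.univ.filter (fun l => I l = bar (bar y))).card : ℝ) * v (σ • bar y) = _
      rw [bar_bar]
    have h4 : ∀ l, v (σ • bar (I l)) = -v (σ • I l) := fun l => hva (σ • I l)
    have h5 : ∑ l, v (σ • I l) = 0 := h1
    rw [h3, hcount (fun y => v (σ • bar y)), Finset.sum_congr rfl (fun l _ => h4 l),
      Finset.sum_neg_distrib, h5]
    norm_num
  have hblock := core_block_real (X := X) (G := L ≃ₐ[ℚ] L) bar (fun g x => rfl) (fun x => x.1) v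
    hva (fun x y hxy => by
      obtain ⟨τ, hτ⟩ := hflip (J x) (J y) hxy
      obtain ⟨σ, hσ⟩ := H194R3.CM.exists_restrict j τ
      have hJσ : ∀ z : X, J (σ • z) = H194R3.CM.move τ (J z) := by
        rintro ⟨a, φ⟩
        exact congrArg (Sigma.mk a) (H194R3.CM.comp_smul_of_restrict j τ σ hσ φ)
      refine ⟨σ, ?_⟩
      rcases hτ with ⟨h3, h4⟩ | ⟨h3, h4⟩ | ⟨h3, h4⟩
      · refine Or.inl ⟨hJ ?_, hJ ?_⟩
        · rw [hJσ, h3]
        · rw [hJσ, hJinv, h4]
      · refine Or.inr ⟨hJ ?_, hJ ?_⟩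
        · rw [hJσ, hJinv, h3]
        · rw [hJσ, h4]
      · exfalso
        apply hxy
        exact (congrArg Sigma.fst h3).symm) (fun y => (c0 y : ℝ)) hrel
  -- the relation on one block
  have hblock' : ∀ i, ∀ g : L ≃ₐ[ℚ] L, ∑ φ : E i →+* L, c0 ⟨i, φ⟩ * e i (g • φ) = 0 := by
    intro i g
    have h1 := hblock i g
    rw [Finset.sum_filter, Fintype.sum_sigma, Finset.sum_eq_single i] at h1
    · have h2 : ∑ φ : E i →+* L, (c0 ⟨i, φ⟩ : ℝ) * ((e i (g • φ) : ℝ) * Real.log (t i)) = 0 := by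
        rw [← h1]
        refine Finset.sum_congr rfl fun φ _ => ?_
        rw [if_pos rfl, ← hve]
        rfl
      simp only [← mul_assoc] at h2
      rw [← Finset.sum_mul] at h2
      have h3 := (mul_eq_zero.1 h2).resolve_right (hlog i)
      exact_mod_cast h3
    · intro b _ hb
      refine Finset.sum_eq_zero fun φ _ => ?_
      rw [if_neg hb]
    · intro h
      exact absurd (Finset.mem_univ _) h
  have hmain : ∀ i (φ : E i →+* L), c0 ⟨i, φ⟩ = 0 := by
    intro i
    by_contra hcon
    push Not at hcon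
    have _ : Fact (r i).Prime := ⟨hr i⟩
    have h₀ : ∀ τ : F i →+* ℂ, ∃ y : F i →+* L, j.comp y = τ := by
      intro τ
      obtain ⟨ψ, rfl⟩ := exists_extension (E := E i) τ
      obtain ⟨φ, rfl⟩ := h i ψ
      exact ⟨φ.comp (algebraMap (F i) (E i)), rfl⟩
    obtain ⟨b, ⟨y₀, hy₀⟩, hb1, hb2⟩ := core_tower (G := L ≃ₐ[ℚ] L) (R := E i →+* L)
      (R₀ := F i →+* L)
      (inv := cbar) (inv₀ := cbar) (fun x => cbar_cbar x) (fun x => cbar_ne x) (fun g x => rfl)
      (fun φ => φ.comp (algebraMap (F i) (E i))) (fun g x => rfl) (fun x => cbar_restrict x j)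
      (r i) (k i)
      (by rw [card_tower j (h i) h₀, hdeg]) (noOrder_gal j h₀ (r i) (hno i))
      (e i) (fun φ => c0 ⟨i, φ⟩) (hea i) (fun φ => hc0 ⟨i, φ⟩) (hblock' i) hcon
    have hbij : Function.Bijective (fun φ : F i →+* L => jp.comp φ) := by
      constructor
      · intro φ ψ hh
        ext x
        exact jp.injective (RingHom.congr_fun hh x)
      · intro τ
        exact exists_factor j h₀ jp τ
    have hbijE : Function.Bijective (fun φ : E i →+* L => jp.comp φ) := by
      constructor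
      · intro φ ψ hh
        ext x
        exact jp.injective (RingHom.congr_fun hh x)
      · intro τ
        exact exists_factor j (h i) jp τ
    let eqv : (F i →+* L) ≃ (F i →+* PadicAlgCl p) := Equiv.ofBijective _ hbij
    have heqv : ∀ y : F i →+* L, eqv.symm (jp.comp y) = y := fun y => eqv.symm_apply_apply y
    apply hy₀
    have h1 := hu2 i (fun τ => b (eqv.symm τ)) ?_ ?_ (jp.comp y₀)
    · rw [← heqv y₀]
      exact h1
    · intro τ
      obtain ⟨y, rfl⟩ := hbij.2 τ
      change b (eqv.symm (jp.comp (cbar y))) = -b (eqv.symm (jp.comp y))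
      rw [heqv, heqv, hb1]
    · intro g
      obtain ⟨σ, hσ⟩ := exists_restrict' jp g
      rw [← hb2 σ]
      refine (Fintype.sum_equiv (Equiv.ofBijective _ hbijE) _ _ fun x => ?_).symm
      change b (x.comp (algebraMap (F i) (E i))) * ((e i (σ • x) : ℤ) : ZMod (r i)) =
        b (eqv.symm (jp.comp (x.comp (algebraMap (F i) (E i))))) *
          ((u i (g.comp (jp.comp x)) : ℤ) : ZMod (r i))
      rw [heqv]
      have h2 : jp.comp (σ • x) = g.comp (jp.comp x) := by
        ext z
        exact hσ (x z)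
      change _ * ((u i (jp.comp (σ • x)) : ℤ) : ZMod (r i)) = _
      rw [h2]
  have h9 := hmain y.1 y.2
  change c0 y = 0 at h9
  simp only [c0] at h9
  omega

end

end Pool.Agent.H204R3.GP
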